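import Mathlib

open Finset

namespace Pool.Agent.Results.MP_952639_co.AlmostCompleteHosts

/-- Two `r`-sets that share at least `r - 1` vertices (an `r`-set is near itself). -/
def Near {V : Type*} [DecidableEq V] (r : ℕ) (e f : Finset V) : Prop :=
  e.card = r ∧ f.card = r ∧ r ≤ (e ∩ f).card + 1

section Cohomology

variable {V : Type*} [DecidableEq V]

/-- A family of sets, closed under subsets up to size `r` and containing all sets of more
than `r` elements, in which any nine members of size at most `r + 1` have a common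
extension. -/
structure Rich (r : ℕ) (Y : Finset V → Prop) : Prop where
  free : ∀ A : Finset V, r < A.card → Y A
  down : ∀ A B : Finset V, B ⊆ A → A.card ≤ r → Y A → Y B
  ext : ∀ L : List (Finset V), L.length ≤ 9 → (∀ F ∈ L, Y F ∧ F.card ≤ r + 1) →
    ∃ z, ∀ F ∈ L, z ∉ F ∧ Y (insert z F)

/-- Additivity on the two kinds of triangles of the `i`-th level. -/
structure Coc (Y : Finset V → Prop) (i : ℕ) (φ : Finset V → Finset V → ZMod 2) : Prop where
  symm : ∀ e f, φ e f = φ f e
  t1 : ∀ (D : Finset V) (a b c : V), a ∉ D → b ∉ D → c ∉ D → a ≠ b → a ≠ c → b ≠ c →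
    D.card + 1 = i → Y (insert a D) → Y (insert b D) → Y (insert c D) →
    Y (insert a (insert b D)) → Y (insert a (insert c D)) → Y (insert b (insert c D)) →
    Y (insert a (insert b (insert c D))) →
    φ (insert a D) (insert b D) + φ (insert b D) (insert c D) +
      φ (insert a D) (insert c D) = 0
  t2 : ∀ (D : Finset V) (a b c : V), a ∉ D → b ∉ D → c ∉ D → a ≠ b → a ≠ c → b ≠ c →
    D.card + 2 = i →
    Y (insert a (insert b D)) → Y (insert a (insert c D)) → Y (insert b (insert c D)) →
    Y (insert a (insert b (insert c D))) →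
    φ (insert a (insert b D)) (insert a (insert c D)) +
      φ (insert a (insert b D)) (insert b (insert c D)) +
      φ (insert a (insert c D)) (insert b (insert c D)) = 0

theorem link_potential {r i : ℕ} {Y : Finset V → Prop} (hY : Rich r Y) (hi : i ≤ r)
    {φ : Finset V → Finset V → ZMod 2} (hφ : Coc Y i φ) {B : Finset V} (hB : B.card + 1 = i)
    (hYB : Y B) :
    ∃ h : V → ZMod 2, ∀ x y, x ∉ B → y ∉ B → x ≠ y → Y (insert x B) → Y (insert y B) →
      Y (insert x (insert y B)) → φ (insert x B) (insert y B) = h x + h y := by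
  have c0 : B.card ≤ r + 1 := by omega
  have c1 : ∀ x, (insert x B).card ≤ r + 1 := fun x => by
    have := Finset.card_insert_le x B
    omega
  have c2 : ∀ x y, (insert x (insert y B)).card ≤ r + 1 := fun x y => by
    have h1 := Finset.card_insert_le y B
    have h2 := Finset.card_insert_le x (insert y B)
    omega
  obtain ⟨x0, hx0⟩ := hY.ext [B] (by simp) (by
    intro F hF
    simp only [List.mem_cons, List.not_mem_nil, or_false] at hF
    subst hF
    exact ⟨hYB, c0⟩)
  have hx0B : x0 ∉ B := (hx0 B (by simp)).1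
  have hx0Y : Y (insert x0 B) := (hx0 B (by simp)).2
  have tri : ∀ x y z, x ∉ B → y ∉ B → z ∉ B → x ≠ y → x ≠ z → y ≠ z → Y (insert x B) →
      Y (insert y B) → Y (insert z B) → Y (insert x (insert y B)) →
      Y (insert z (insert x B)) → Y (insert z (insert y B)) →
      Y (insert z (insert x (insert y B))) →
      φ (insert x B) (insert y B) + φ (insert y B) (insert z B) +
        φ (insert x B) (insert z B) = 0 := by
    intro x y z h1 h2 h3 h4 h5 h6 h7 h8 h9 h10 h11 h12 h13
    refine hφ.t1 B x y z h1 h2 h3 h4 h5 h6 hB h7 h8 h9 h10 ?_ ?_ ?_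
    · rw [Finset.insert_comm]; exact h11
    · rw [Finset.insert_comm]; exact h12
    · rw [Finset.insert_comm y z B, Finset.insert_comm x z]; exact h13
  let Good : V → V → Prop := fun x z => z ∉ B ∧ z ≠ x0 ∧ z ≠ x ∧ Y (insert z B) ∧
    Y (insert z (insert x0 B)) ∧ Y (insert z (insert x B))
  have key : ∀ x z z', x ∉ B → Y (insert x B) → Good x z → Good x z' →
      φ (insert x0 B) (insert z B) + φ (insert z B) (insert x B) =
      φ (insert x0 B) (insert z' B) + φ (insert z' B) (insert x B) := by
    rintro x z z' hxB hxY ⟨g1, g2, g3, g4, g5, g6⟩ ⟨g1', g2', g3', g4', g5', g6'⟩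
    obtain ⟨w, hw⟩ := hY.ext [B, insert x0 B, insert x B, insert z B, insert z' B,
      insert x0 (insert z B), insert x0 (insert z' B), insert x (insert z B),
      insert x (insert z' B)] (by simp) (by
        intro F hF
        simp only [List.mem_cons, List.not_mem_nil, or_false] at hF
        rcases hF with rfl | rfl | rfl | rfl | rfl | rfl | rfl | rfl | rfl
        · exact ⟨hYB, c0⟩
        · exact ⟨hx0Y, c1 _⟩
        · exact ⟨hxY, c1 _⟩
        · exact ⟨g4, c1 _⟩
        · exact ⟨g4', c1 _⟩
        · exact ⟨by rw [Finset.insert_comm]; exact g5, c2 _ _⟩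
        · exact ⟨by rw [Finset.insert_comm]; exact g5', c2 _ _⟩
        · exact ⟨by rw [Finset.insert_comm]; exact g6, c2 _ _⟩
        · exact ⟨by rw [Finset.insert_comm]; exact g6', c2 _ _⟩)
    have w1 := hw B (by simp)
    have w2 := hw (insert x0 B) (by simp)
    have w3 := hw (insert x B) (by simp)
    have w4 := hw (insert z B) (by simp)
    have w5 := hw (insert z' B) (by simp)
    have w6 := hw (insert x0 (insert z B)) (by simp)
    have w7 := hw (insert x0 (insert z' B)) (by simp)
    have w8 := hw (insert x (insert z B)) (by simp)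
    have w9 := hw (insert x (insert z' B)) (by simp)
    have n0 : x0 ≠ w := fun h => w2.1 (by rw [← h]; exact Finset.mem_insert_self _ _)
    have nx : x ≠ w := fun h => w3.1 (by rw [← h]; exact Finset.mem_insert_self _ _)
    have nz : z ≠ w := fun h => w4.1 (by rw [← h]; exact Finset.mem_insert_self _ _)
    have nz' : z' ≠ w := fun h => w5.1 (by rw [← h]; exact Finset.mem_insert_self _ _)
    have e1 := tri x0 z w hx0B g1 w1.1 g2.symm n0 nz hx0Y g4 w1.2
      (by rw [Finset.insert_comm]; exact g5) w2.2 w4.2 w6.2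
    have e2 := tri x z w hxB g1 w1.1 g3.symm nx nz hxY g4 w1.2
      (by rw [Finset.insert_comm]; exact g6) w3.2 w4.2 w8.2
    have e3 := tri x0 z' w hx0B g1' w1.1 g2'.symm n0 nz' hx0Y g4' w1.2
      (by rw [Finset.insert_comm]; exact g5') w2.2 w5.2 w7.2
    have e4 := tri x z' w hxB g1' w1.1 g3'.symm nx nz' hxY g4' w1.2
      (by rw [Finset.insert_comm]; exact g6') w3.2 w5.2 w9.2
    rw [hφ.symm (insert z B) (insert x B), hφ.symm (insert z' B) (insert x B)]
    generalize φ (insert x0 B) (insert z B) = u1 at *
    generalize φ (insert x B) (insert z B) = u2 at *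
    generalize φ (insert x0 B) (insert z' B) = u3 at *
    generalize φ (insert x B) (insert z' B) = u4 at *
    generalize φ (insert z B) (insert w B) = u5 at *
    generalize φ (insert z' B) (insert w B) = u6 at *
    generalize φ (insert x0 B) (insert w B) = u7 at *
    generalize φ (insert x B) (insert w B) = u8 at *
    clear * - e1 e2 e3 e4
    have t1 : u1 + u2 + (u7 + u8) = 0 := by
      have : u1 + u2 + (u7 + u8) + (u5 + u5) = 0 := by
        linear_combination e1 + e2
      rwa [CharTwo.add_self_eq_zero, add_zero] at this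
    have t2 : u3 + u4 + (u7 + u8) = 0 := by
      have : u3 + u4 + (u7 + u8) + (u6 + u6) = 0 := by
        linear_combination e3 + e4
      rwa [CharTwo.add_self_eq_zero, add_zero] at this
    exact add_right_cancel (t1.trans t2.symm)
  have hh : ∀ x, ∃ t : ZMod 2, ∀ z, x ∉ B → Y (insert x B) → Good x z →
      t = φ (insert x0 B) (insert z B) + φ (insert z B) (insert x B) := by
    intro x
    by_cases hx : ∃ z, x ∉ B ∧ Y (insert x B) ∧ Good x z
    · obtain ⟨z, h1, h2, h3⟩ := hx
      exact ⟨_, fun z' _ _ h3' => key x z z' h1 h2 h3 h3'⟩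
    · exact ⟨0, fun z h1 h2 h3 => absurd ⟨z, h1, h2, h3⟩ hx⟩
  choose h hh using hh
  refine ⟨h, ?_⟩
  intro x y hx hy hxy hYx hYy hYxy
  obtain ⟨z, hz⟩ := hY.ext [B, insert x0 B, insert x B, insert y B, insert x (insert y B)]
    (by simp) (by
      intro F hF
      simp only [List.mem_cons, List.not_mem_nil, or_false] at hF
      rcases hF with rfl | rfl | rfl | rfl | rfl
      · exact ⟨hYB, c0⟩
      · exact ⟨hx0Y, c1 _⟩
      · exact ⟨hYx, c1 _⟩
      · exact ⟨hYy, c1 _⟩
      · exact ⟨hYxy, c2 _ _⟩)
  have z1 := hz B (by simp)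
  have z2 := hz (insert x0 B) (by simp)
  have z3 := hz (insert x B) (by simp)
  have z4 := hz (insert y B) (by simp)
  have z5 := hz (insert x (insert y B)) (by simp)
  have n0 : z ≠ x0 := fun h => z2.1 (by rw [h]; exact Finset.mem_insert_self _ _)
  have nx : z ≠ x := fun h => z3.1 (by rw [h]; exact Finset.mem_insert_self _ _)
  have ny : z ≠ y := fun h => z4.1 (by rw [h]; exact Finset.mem_insert_self _ _)
  have e1 := hh x z hx hYx ⟨z1.1, n0, nx, z1.2, z2.2, z3.2⟩
  have e2 := hh y z hy hYy ⟨z1.1, n0, ny, z1.2, z2.2, z4.2⟩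
  have e3 := tri x y z hx hy z1.1 hxy nx.symm ny.symm hYx hYy z1.2 hYxy z3.2 z4.2 z5.2
  rw [hφ.symm (insert z B) (insert x B)] at e1
  rw [hφ.symm (insert z B) (insert y B)] at e2
  rw [e1, e2]
  generalize φ (insert x B) (insert y B) = u1 at *
  generalize φ (insert y B) (insert z B) = u2 at *
  generalize φ (insert x B) (insert z B) = u3 at *
  generalize φ (insert x0 B) (insert z B) = u4 at *
  clear * - e3
  revert u1 u2 u3 u4
  decide

theorem sdiff_core {A : Finset V} {x y : V} (hy : y ∉ A) (hxy : x ≠ y) :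
    insert y A \ insert x A = {y} := by
  ext z
  simp only [Finset.mem_sdiff, Finset.mem_insert, Finset.mem_singleton, not_or]
  constructor
  · rintro ⟨h | h, h1, h2⟩
    · exact h
    · exact absurd h h2
  · rintro rfl
    exact ⟨Or.inl _root_.rfl, fun h => hxy h.symm, hy⟩

/-- Every additive function on pairs of neighbouring faces is the difference of a function
on faces. -/
theorem Coc.exists_potential {r : ℕ} {Y : Finset V → Prop} (hY : Rich r Y) (i : ℕ) :
    i ≤ r → ∀ (φ : Finset V → Finset V → ZMod 2), Coc Y i φ →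
      ∃ g : Finset V → ZMod 2, ∀ (D : Finset V) (x y : V), x ∉ D → y ∉ D → x ≠ y →
        D.card + 1 = i → Y (insert x D) → Y (insert y D) → Y (insert x (insert y D)) →
        φ (insert x D) (insert y D) = g (insert x D) + g (insert y D) := by
  induction i with
  | zero =>
    intro _ φ _
    refine ⟨fun _ => 0, ?_⟩
    intro D x y _ _ _ h
    omega
  | succ i ih =>
    intro hi φ hφ
    have hh : ∀ A : Finset V, ∃ h : V → ZMod 2, A.card = i → Y A → ∀ x y, x ∉ A → y ∉ A →
        x ≠ y → Y (insert x A) → Y (insert y A) → Y (insert x (insert y A)) →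
        φ (insert x A) (insert y A) = h x + h y := by
      intro A
      by_cases hA : A.card = i ∧ Y A
      · obtain ⟨h, hh⟩ := link_potential hY hi hφ (by rw [hA.1] : A.card + 1 = i + 1) hA.2
        exact ⟨h, fun _ _ => hh⟩
      · exact ⟨fun _ => 0, fun h1 h2 => absurd ⟨h1, h2⟩ hA⟩
    choose h hh using hh
    let ψ : Finset V → Finset V → ZMod 2 := fun A B =>
      (∑ x ∈ B \ A, h A x) + ∑ x ∈ A \ B, h B x
    have ψsymm : ∀ A B, ψ A B = ψ B A := by
      intro A B
      simp only [ψ]
      rw [add_comm]
    have ψcore : ∀ (D : Finset V) (a b : V), a ∉ D → b ∉ D → a ≠ b →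
        ψ (insert a D) (insert b D) = h (insert a D) b + h (insert b D) a := by
      intro D a b ha hb hab
      simp only [ψ]
      rw [sdiff_core hb hab, sdiff_core ha hab.symm, Finset.sum_singleton,
        Finset.sum_singleton]
    have hψ : Coc Y i ψ := by
      refine ⟨ψsymm, ?_, ?_⟩
      · intro D a b c ha hb hc hab hac hbc hD hYa hYb hYc hYab hYac hYbc hYabc
        rw [ψcore D a b ha hb hab, ψcore D b c hb hc hbc, ψcore D a c ha hc hac]
        have ca : (insert a D).card = i := by rw [Finset.card_insert_of_notMem ha]; exact hD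
        have cb : (insert b D).card = i := by rw [Finset.card_insert_of_notMem hb]; exact hD
        have cc : (insert c D).card = i := by rw [Finset.card_insert_of_notMem hc]; exact hD
        have hba : b ∉ insert a D := by
          rw [Finset.mem_insert, not_or]; exact ⟨hab.symm, hb⟩
        have hca : c ∉ insert a D := by
          rw [Finset.mem_insert, not_or]; exact ⟨hac.symm, hc⟩
        have hab' : a ∉ insert b D := by
          rw [Finset.mem_insert, not_or]; exact ⟨hab, ha⟩
        have hcb : c ∉ insert b D := by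
          rw [Finset.mem_insert, not_or]; exact ⟨hbc.symm, hc⟩
        have hac' : a ∉ insert c D := by
          rw [Finset.mem_insert, not_or]; exact ⟨hac, ha⟩
        have hbc' : b ∉ insert c D := by
          rw [Finset.mem_insert, not_or]; exact ⟨hbc, hb⟩
        have q1 := hh (insert a D) ca hYa b c hba hca hbc
          (by rw [Finset.insert_comm]; exact hYab) (by rw [Finset.insert_comm]; exact hYac)
          (by
            have : insert b (insert c (insert a D)) = insert a (insert b (insert c D)) := by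
              rw [Finset.insert_comm c a D, Finset.insert_comm b a]
            rw [this]; exact hYabc)
        have q2 := hh (insert b D) cb hYb a c hab' hcb hac hYab
          (by rw [Finset.insert_comm]; exact hYbc)
          (by
            have : insert a (insert c (insert b D)) = insert a (insert b (insert c D)) := by
              rw [Finset.insert_comm c b D]
            rw [this]; exact hYabc)
        have q3 := hh (insert c D) cc hYc a b hac' hbc' hab hYac hYbc hYabc
        have q4 := hφ.t2 D a b c ha hb hc hab hac hbc (by omega) hYab hYac hYbc hYabc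
        rw [Finset.insert_comm b a D, Finset.insert_comm c a D] at q1
        rw [Finset.insert_comm c b D] at q2
        rw [q1, q2, q3] at q4
        generalize h (insert a D) b = u1 at *
        generalize h (insert b D) a = u2 at *
        generalize h (insert b D) c = u3 at *
        generalize h (insert c D) b = u4 at *
        generalize h (insert a D) c = u5 at *
        generalize h (insert c D) a = u6 at *
        clear * - q4
        revert u1 u2 u3 u4 u5 u6
        decide
      · intro D a b c ha hb hc hab hac hbc hD _ _ _ _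
        have hba : b ∉ insert a D := by
          rw [Finset.mem_insert, not_or]; exact ⟨hab.symm, hb⟩
        have hca : c ∉ insert a D := by
          rw [Finset.mem_insert, not_or]; exact ⟨hac.symm, hc⟩
        have hab' : a ∉ insert b D := by
          rw [Finset.mem_insert, not_or]; exact ⟨hab, ha⟩
        have hcb : c ∉ insert b D := by
          rw [Finset.mem_insert, not_or]; exact ⟨hbc.symm, hc⟩
        have hac' : a ∉ insert c D := by
          rw [Finset.mem_insert, not_or]; exact ⟨hac, ha⟩
        have hbc' : b ∉ insert c D := by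
          rw [Finset.mem_insert, not_or]; exact ⟨hbc, hb⟩
        have p1 := ψcore (insert a D) b c hba hca hbc
        have p2 := ψcore (insert b D) a c hab' hcb hac
        have p3 := ψcore (insert c D) a b hac' hbc' hab
        rw [Finset.insert_comm b a D, Finset.insert_comm c a D] at p1
        rw [Finset.insert_comm c b D] at p2
        rw [p1, p2, p3]
        generalize h (insert a (insert b D)) c = u1
        generalize h (insert a (insert c D)) b = u2
        generalize h (insert b (insert c D)) a = u3
        clear * -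
        revert u1 u2 u3
        decide
    obtain ⟨k, hk⟩ := ih (by omega) ψ hψ
    have hg : ∀ e : Finset V, ∃ t : ZMod 2, e.card = i + 1 → Y e → ∀ y ∈ e,
        t = h (e.erase y) y + k (e.erase y) := by
      intro e
      by_cases he : e.card = i + 1
      · have hne : e.Nonempty := Finset.card_pos.mp (by omega)
        obtain ⟨y0, hy0⟩ := hne
        refine ⟨h (e.erase y0) y0 + k (e.erase y0), fun _ hYe y hy => ?_⟩
        by_cases hyy : y0 = y
        · subst hyy; rfl
        have hye : y ∈ e.erase y0 := Finset.mem_erase.mpr ⟨fun h => hyy h.symm, hy⟩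
        have hyD : y ∉ (e.erase y0).erase y := Finset.notMem_erase _ _
        have hy0D : y0 ∉ (e.erase y0).erase y := fun hc =>
          Finset.notMem_erase y0 e (Finset.mem_of_mem_erase hc)
        have hA : insert y ((e.erase y0).erase y) = e.erase y0 := Finset.insert_erase hye
        have hB : insert y0 ((e.erase y0).erase y) = e.erase y := by
          rw [Finset.erase_right_comm]
          exact Finset.insert_erase (Finset.mem_erase.mpr ⟨hyy, hy0⟩)
        have cD : ((e.erase y0).erase y).card + 1 = i := by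
          rw [Finset.card_erase_of_mem hye, Finset.card_erase_of_mem hy0]
          have : 0 < (e.erase y0).card := Finset.card_pos.mpr ⟨y, hye⟩
          rw [Finset.card_erase_of_mem hy0] at this
          omega
        have hY1 : Y (e.erase y0) := hY.down e _ (Finset.erase_subset _ _) (by omega) hYe
        have hY2 : Y (e.erase y) := hY.down e _ (Finset.erase_subset _ _) (by omega) hYe
        have q1 := hk ((e.erase y0).erase y) y y0 hyD hy0D (fun h => hyy h.symm) cD
          (by rw [hA]; exact hY1) (by rw [hB]; exact hY2)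
          (by rw [hB, Finset.insert_erase hy]; exact hYe)
        have q2 := ψcore ((e.erase y0).erase y) y y0 hyD hy0D (fun h => hyy h.symm)
        rw [hA, hB] at q1 q2
        rw [q2] at q1
        generalize h (e.erase y0) y0 = u1 at *
        generalize h (e.erase y) y = u2 at *
        generalize k (e.erase y0) = u3 at *
        generalize k (e.erase y) = u4 at *
        clear * - q1
        revert u1 u2 u3 u4
        decide
      · exact ⟨0, fun h => absurd h he⟩
    choose g hg using hg
    refine ⟨g, ?_⟩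
    intro D x y hx hy hxy hD hYx hYy hYxy
    have hDc : D.card = i := by omega
    have hcx : (insert x D).card = i + 1 := by
      rw [Finset.card_insert_of_notMem hx]; exact hD
    have hcy : (insert y D).card = i + 1 := by
      rw [Finset.card_insert_of_notMem hy]; exact hD
    have hYD : Y D := hY.down (insert x D) D (Finset.subset_insert _ _) (by omega) hYx
    have q1 := hh D hDc hYD x y hx hy hxy hYx hYy hYxy
    have q2 := hg (insert x D) hcx hYx x (Finset.mem_insert_self _ _)
    have q3 := hg (insert y D) hcy hYy y (Finset.mem_insert_self _ _)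
    rw [Finset.erase_insert hx] at q2
    rw [Finset.erase_insert hy] at q3
    rw [q1, q2, q3]
    generalize h D x = u1
    generalize h D y = u2
    generalize k D = u3
    clear * -
    revert u1 u2 u3
    decide

end Cohomology


section Hosts

variable {V : Type*} [DecidableEq V] [Fintype V]

open Classical in
/-- The vertices that do not extend `F`. -/
noncomputable def Bad (Y : Finset V → Prop) (F : Finset V) : Finset V :=
  univ.filter (fun z => z ∈ F ∨ ¬ Y (insert z F))

theorem mem_bad {Y : Finset V → Prop} {F : Finset V} {z : V} :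
    z ∈ Bad Y F ↔ z ∈ F ∨ ¬ Y (insert z F) := by
  classical
  simp [Bad]

/-- A family of sets closed under subsets up to size `r`, containing all larger sets, in
which all but at most `D` vertices extend a given member. -/
structure Host (r D : ℕ) (Y : Finset V → Prop) : Prop where
  free : ∀ A : Finset V, r < A.card → Y A
  down : ∀ A B : Finset V, B ⊆ A → A.card ≤ r → Y A → Y B
  empty : Y ∅
  bad : ∀ F : Finset V, Y F → F.card ≤ r + 1 → (Bad Y F).card ≤ D

theorem Host.ext_in {r D : ℕ} {Y : Finset V → Prop} (hY : Host r D Y) :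
    ∀ (L : List (Finset V)) (P : Finset V), (∀ F ∈ L, Y F ∧ F.card ≤ r + 1) →
      L.length * D < P.card → ∃ z ∈ P, ∀ F ∈ L, z ∉ F ∧ Y (insert z F) := by
  intro L
  induction L with
  | nil =>
    intro P _ hP
    simp only [List.length_nil, zero_mul] at hP
    obtain ⟨z, hz⟩ := Finset.card_pos.mp hP
    exact ⟨z, hz, fun F hF => absurd hF (by simp)⟩
  | cons F L ih =>
    intro P hL hP
    have h1 : (Bad Y F).card ≤ D := hY.bad F (hL F (by simp)).1 (hL F (by simp)).2
    have h2 : P.card - (Bad Y F).card ≤ (P \ Bad Y F).card := Finset.le_card_sdiff _ _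
    rw [List.length_cons, Nat.succ_mul] at hP
    obtain ⟨z, hz, hz'⟩ := ih (P \ Bad Y F) (fun F' hF' => hL F' (by simp [hF'])) (by omega)
    rw [Finset.mem_sdiff] at hz
    refine ⟨z, hz.1, ?_⟩
    intro F' hF'
    rw [List.mem_cons] at hF'
    rcases hF' with rfl | hF'
    · have h3 := hz.2
      rw [mem_bad, not_or, not_not] at h3
      exact h3
    · exact hz' F' hF'

theorem Host.rich {r D : ℕ} {Y : Finset V → Prop} (hY : Host r D Y)
    (h : 9 * D < Fintype.card V) : Rich r Y where
  free := hY.free
  down := hY.down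
  ext := by
    intro L hL hF
    have h1 : L.length * D ≤ 9 * D := Nat.mul_le_mul_right _ hL
    obtain ⟨z, -, hz⟩ := hY.ext_in L univ hF (by rw [Finset.card_univ]; omega)
    exact ⟨z, hz⟩

theorem Host.exists_face {r D : ℕ} {Y : Finset V → Prop} (hY : Host r D Y) (P : Finset V)
    (hP : D < P.card) : ∀ i, i ≤ r → ∃ e : Finset V, e ⊆ P ∧ e.card = i ∧ Y e := by
  intro i
  induction i with
  | zero => exact fun _ => ⟨∅, by simp, by simp, hY.empty⟩
  | succ i ih =>
    intro hi
    obtain ⟨e, he1, he2, he3⟩ := ih (by omega)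
    obtain ⟨z, hz1, hz2⟩ := hY.ext_in [e] P (by
      intro F hF
      simp only [List.mem_cons, List.not_mem_nil, or_false] at hF
      subst hF
      exact ⟨he3, by omega⟩) (by simpa using hP)
    have h1 := hz2 e (by simp)
    refine ⟨insert z e, Finset.insert_subset hz1 he1, ?_, h1.2⟩
    rw [Finset.card_insert_of_notMem h1.1, he2]

/-- Consecutive near faces, both of positive weight. -/
def PosStep (r : ℕ) (Y : Finset V → Prop) (w : V → ℝ) (e f : Finset V) : Prop :=
  Near r e f ∧ Y e ∧ Y f ∧ 0 < ∑ v ∈ e, w v ∧ 0 < ∑ v ∈ f, w v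

omit [Fintype V] in
theorem PosStep.symm {r : ℕ} {Y : Finset V → Prop} {w : V → ℝ} {e f : Finset V}
    (h : PosStep r Y w e f) : PosStep r Y w f e :=
  ⟨⟨h.1.2.1, h.1.1, by rw [Finset.inter_comm]; exact h.1.2.2⟩, h.2.2.1, h.2.1, h.2.2.2.2,
    h.2.2.2.1⟩

omit [Fintype V] in
theorem swap_pos {A Z : Finset V} {w : V → ℝ} {x z : V} (hx : x ∈ A)
    (hmin : ∀ v ∈ A, w x ≤ w v) (hd : Disjoint A Z) (hZ : ∀ v ∈ Z, 0 < w v)
    (hz : z ∉ A.erase x ∪ Z) (hwz : 0 < w z) (hpos : 0 < ∑ v ∈ A ∪ Z, w v) :
    0 < ∑ v ∈ insert z (A.erase x ∪ Z), w v := by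
  rw [Finset.sum_insert hz]
  have hxE : x ∉ A.erase x ∪ Z := by
    rw [Finset.mem_union, not_or]
    exact ⟨Finset.notMem_erase _ _, Finset.disjoint_left.mp hd hx⟩
  have h1 : insert x (A.erase x ∪ Z) = A ∪ Z := by
    rw [← Finset.insert_union, Finset.insert_erase hx]
  rw [← h1, Finset.sum_insert hxE] at hpos
  rcases le_or_gt (w x) 0 with h2 | h2
  · linarith
  · have h3 : 0 ≤ ∑ v ∈ A.erase x ∪ Z, w v := by
      apply Finset.sum_nonneg
      intro v hv
      rw [Finset.mem_union] at hv
      rcases hv with hv | hv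
      · exact h2.le.trans (hmin v (Finset.mem_of_mem_erase hv))
      · exact (hZ v hv).le
    linarith

omit [Fintype V] in
theorem near_swap {r : ℕ} {A Z : Finset V} {x z : V} (hx : x ∈ A) (hd : Disjoint A Z)
    (hz : z ∉ A.erase x ∪ Z) (hc : A.card + Z.card = r) :
    Near r (A ∪ Z) (insert z (A.erase x ∪ Z)) := by
  have hd' : Disjoint (A.erase x) Z := Finset.disjoint_of_subset_left (Finset.erase_subset _ _) hd
  have h1 : (A.erase x ∪ Z).card + 1 = r := by
    rw [Finset.card_union_of_disjoint hd', Finset.card_erase_of_mem hx]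
    have := Finset.card_pos.mpr ⟨x, hx⟩
    omega
  refine ⟨by rw [Finset.card_union_of_disjoint hd]; exact hc,
    by rw [Finset.card_insert_of_notMem hz]; exact h1, ?_⟩
  have h2 : A.erase x ∪ Z ⊆ (A ∪ Z) ∩ insert z (A.erase x ∪ Z) := by
    intro v hv
    rw [Finset.mem_inter]
    exact ⟨Finset.union_subset_union_left (Finset.erase_subset _ _) hv,
      Finset.mem_insert_of_mem hv⟩
  have := Finset.card_le_card h2
  omega

theorem Host.pos_conn {r D : ℕ} {Y : Finset V → Prop} (hY : Host r D Y)
    (w : V → ℝ) (hw : 2 * D < (univ.filter (fun v => 0 < w v)).card) :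
    ∀ (m : ℕ) (A B Z : Finset V), A.card = m → B.card = m → Disjoint A Z → Disjoint B Z →
      (∀ z ∈ Z, 0 < w z) → Z.card + m = r → Y (A ∪ Z) → Y (B ∪ Z) →
      0 < ∑ v ∈ A ∪ Z, w v → 0 < ∑ v ∈ B ∪ Z, w v →
      Relation.ReflTransGen (PosStep r Y w) (A ∪ Z) (B ∪ Z) := by
  intro m
  induction m with
  | zero =>
    intro A B Z hA hB _ _ _ _ _ _ _ _
    rw [Finset.card_eq_zero.mp hA, Finset.card_eq_zero.mp hB]
  | succ m ih =>
    intro A B Z hA hB hdA hdB hZ hc hYA hYB hpA hpB
    have hAne : A.Nonempty := Finset.card_pos.mp (by omega)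
    have hBne : B.Nonempty := Finset.card_pos.mp (by omega)
    obtain ⟨x, hx, hxmin⟩ := Finset.exists_min_image A w hAne
    obtain ⟨y, hy, hymin⟩ := Finset.exists_min_image B w hBne
    have cA : (A ∪ Z).card = r := by rw [Finset.card_union_of_disjoint hdA]; omega
    have cB : (B ∪ Z).card = r := by rw [Finset.card_union_of_disjoint hdB]; omega
    have sA : A.erase x ∪ Z ⊆ A ∪ Z :=
      Finset.union_subset_union_left (Finset.erase_subset _ _)
    have sB : B.erase y ∪ Z ⊆ B ∪ Z :=
      Finset.union_subset_union_left (Finset.erase_subset _ _)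
    have kA := Finset.card_le_card sA
    have kB := Finset.card_le_card sB
    obtain ⟨z, hzP, hz⟩ := hY.ext_in [A.erase x ∪ Z, B.erase y ∪ Z]
      (univ.filter (fun v => 0 < w v)) (by
        intro F hF
        simp only [List.mem_cons, List.not_mem_nil, or_false] at hF
        rcases hF with rfl | rfl
        · exact ⟨hY.down _ _ sA (by omega) hYA, by omega⟩
        · exact ⟨hY.down _ _ sB (by omega) hYB, by omega⟩) (by simpa using hw)
    have hwz : 0 < w z := (Finset.mem_filter.mp hzP).2
    have z1 := hz (A.erase x ∪ Z) (by simp)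
    have z2 := hz (B.erase y ∪ Z) (by simp)
    have p1 := swap_pos hx hxmin hdA hZ z1.1 hwz hpA
    have p2 := swap_pos hy hymin hdB hZ z2.1 hwz hpB
    have n1 := near_swap hx hdA z1.1 (by omega : A.card + Z.card = r)
    have n2 := near_swap hy hdB z2.1 (by omega : B.card + Z.card = r)
    have e1 : A.erase x ∪ insert z Z = insert z (A.erase x ∪ Z) := Finset.union_insert _ _ _
    have e2 : B.erase y ∪ insert z Z = insert z (B.erase y ∪ Z) := Finset.union_insert _ _ _
    have zA : z ∉ A.erase x := fun h => z1.1 (Finset.mem_union_left _ h)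
    have zB : z ∉ B.erase y := fun h => z2.1 (Finset.mem_union_left _ h)
    have zZ : z ∉ Z := fun h => z1.1 (Finset.mem_union_right _ h)
    have dA : Disjoint (A.erase x) (insert z Z) := by
      rw [Finset.disjoint_insert_right]
      exact ⟨zA, Finset.disjoint_of_subset_left (Finset.erase_subset _ _) hdA⟩
    have dB : Disjoint (B.erase y) (insert z Z) := by
      rw [Finset.disjoint_insert_right]
      exact ⟨zB, Finset.disjoint_of_subset_left (Finset.erase_subset _ _) hdB⟩
    have hmid := ih (A.erase x) (B.erase y) (insert z Z)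
      (by rw [Finset.card_erase_of_mem hx]; omega) (by rw [Finset.card_erase_of_mem hy]; omega)
      dA dB (by
        intro v hv
        rw [Finset.mem_insert] at hv
        rcases hv with rfl | hv
        · exact hwz
        · exact hZ v hv) (by rw [Finset.card_insert_of_notMem zZ]; omega)
      (by rw [e1]; exact z1.2) (by rw [e2]; exact z2.2) (by rw [e1]; exact p1)
      (by rw [e2]; exact p2)
    rw [e1, e2] at hmid
    have s1 : PosStep r Y w (A ∪ Z) (insert z (A.erase x ∪ Z)) := ⟨n1, hYA, z1.2, hpA, p1⟩
    have s2 : PosStep r Y w (B ∪ Z) (insert z (B.erase y ∪ Z)) := ⟨n2, hYB, z2.2, hpB, p2⟩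
    exact Relation.ReflTransGen.head s1 (Relation.ReflTransGen.tail hmid s2.symm)

/-- All positive faces of size `r` are joined by positive steps, and there is one. -/
theorem Host.pos_all {r D : ℕ} {Y : Finset V → Prop} (hY : Host r D Y) (hr : 1 ≤ r)
    (w : V → ℝ) (hw : 2 * D < (univ.filter (fun v => 0 < w v)).card) :
    (∃ T : Finset V, T.card = r ∧ Y T ∧ 0 < ∑ v ∈ T, w v) ∧
    ∀ e f : Finset V, e.card = r → f.card = r → Y e → Y f → 0 < ∑ v ∈ e, w v →
      0 < ∑ v ∈ f, w v → Relation.ReflTransGen (PosStep r Y w) e f := by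
  constructor
  · obtain ⟨T, hT1, hT2, hT3⟩ := hY.exists_face (univ.filter (fun v => 0 < w v)) (by omega) r
      le_rfl
    refine ⟨T, hT2, hT3, ?_⟩
    apply Finset.sum_pos
    · intro v hv
      exact (Finset.mem_filter.mp (hT1 hv)).2
    · exact Finset.card_pos.mp (by omega)
  · intro e f he hf hYe hYf hpe hpf
    have := hY.pos_conn w hw r e f ∅ he hf (Finset.disjoint_empty_right _)
      (Finset.disjoint_empty_right _) (by simp) (by simp) (by simpa using hYe)
      (by simpa using hYf) (by simpa using hpe) (by simpa using hpf)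
    simpa using this

theorem rtg_symm {α : Type*} {R : α → α → Prop} (h : ∀ a b, R a b → R b a) {a b : α}
    (hab : Relation.ReflTransGen R a b) : Relation.ReflTransGen R b a := by
  induction hab with
  | refl => exact Relation.ReflTransGen.refl
  | tail _ h1 ih => exact Relation.ReflTransGen.head (h _ _ h1) ih

/-- Consecutive near faces. -/
def NearIn (r : ℕ) (Y : Finset V → Prop) (e f : Finset V) : Prop :=
  Near r e f ∧ Y e ∧ Y f

theorem Host.near_connected {r D : ℕ} {Y : Finset V → Prop} (hY : Host r D Y) (hr : 1 ≤ r)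
    (hn : 2 * D < Fintype.card V) (e f : Finset V) (he : e.card = r) (hf : f.card = r)
    (hYe : Y e) (hYf : Y f) : Relation.ReflTransGen (NearIn r Y) e f := by
  have hpos : ∀ g : Finset V, g.card = r → 0 < ∑ v ∈ g, (fun _ : V => (1 : ℝ)) v := by
    intro g hg
    simp only [Finset.sum_const, nsmul_eq_mul, mul_one, hg]
    exact_mod_cast hr
  have h1 := (hY.pos_all hr (fun _ => (1 : ℝ)) (by
    have : (univ.filter (fun v : V => (0 : ℝ) < (fun _ => (1 : ℝ)) v)) = univ := by
      ext v; simp
    rw [this, Finset.card_univ]; exact hn)).2 e f he hf hYe hYf (hpos e he) (hpos f hf)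
  exact Relation.ReflTransGen.mono (fun _ _ h => ⟨h.1, h.2.1, h.2.2.1⟩) _ _ h1

end Hosts

section Components

variable {V : Type*} [DecidableEq V]

theorem Near.symm {r : ℕ} {e f : Finset V} (h : Near r e f) : Near r f e :=
  ⟨h.2.1, h.1, by rw [Finset.inter_comm]; exact h.2.2⟩

theorem Near.exists_core {r : ℕ} {e f : Finset V} (h : Near r e f) (hne : e ≠ f) :
    ∃ (A : Finset V) (x y : V), A.card + 1 = r ∧ x ∉ A ∧ y ∉ A ∧ x ≠ y ∧
      e = insert x A ∧ f = insert y A := by
  obtain ⟨he, hf, hI⟩ := h
  have h1 : (e \ f).card + (e ∩ f).card = e.card := Finset.card_sdiff_add_card_inter e f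
  have h2 : (f \ e).card + (f ∩ e).card = f.card := Finset.card_sdiff_add_card_inter f e
  rw [Finset.inter_comm f e] at h2
  have h3 : (e \ f).Nonempty := by
    rw [Finset.sdiff_nonempty]
    intro hsub
    exact hne (Finset.eq_of_subset_of_card_le hsub (by omega))
  have h4 : 0 < (e \ f).card := Finset.card_pos.mpr h3
  obtain ⟨x, hx⟩ := Finset.card_eq_one.mp (by omega : (e \ f).card = 1)
  obtain ⟨y, hy⟩ := Finset.card_eq_one.mp (by omega : (f \ e).card = 1)
  have hx1 : x ∈ e \ f := by rw [hx]; simp
  have hy1 : y ∈ f \ e := by rw [hy]; simp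
  rw [Finset.mem_sdiff] at hx1 hy1
  refine ⟨e ∩ f, x, y, by omega, ?_, ?_, ?_, ?_, ?_⟩
  · intro h
    exact hx1.2 (Finset.mem_inter.mp h).2
  · intro h
    exact hy1.2 (Finset.mem_inter.mp h).1
  · rintro rfl
    exact hx1.2 hy1.1
  · ext z
    have : z ∈ e \ f ↔ z = x := by rw [hx]; simp
    rw [Finset.mem_sdiff] at this
    simp only [Finset.mem_insert, Finset.mem_inter]
    constructor
    · intro hz
      by_cases hzf : z ∈ f
      · exact Or.inr ⟨hz, hzf⟩
      · exact Or.inl (this.mp ⟨hz, hzf⟩)
    · rintro (rfl | h)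
      · exact hx1.1
      · exact h.1
  · ext z
    have : z ∈ f \ e ↔ z = y := by rw [hy]; simp
    rw [Finset.mem_sdiff] at this
    simp only [Finset.mem_insert, Finset.mem_inter]
    constructor
    · intro hz
      by_cases hzf : z ∈ e
      · exact Or.inr ⟨hzf, hz⟩
      · exact Or.inl (this.mp ⟨hz, hzf⟩)
    · rintro (rfl | h)
      · exact hy1.1
      · exact h.2

/-- One step of a monochromatic tight walk in the `r`-graph with edge set `H`: both sets are
edges of `H`, they share at least `r - 1` vertices and have the same colour. -/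
def Step (r : ℕ) (H : Finset V → Prop) (c : Finset V → Bool) (e f : Finset V) : Prop :=
  Near r e f ∧ H e ∧ H f ∧ c e = c f

/-- `f` can be reached from `e` by finitely many steps. -/
def Linked (r : ℕ) (H : Finset V → Prop) (c : Finset V → Bool) (e f : Finset V) : Prop :=
  Relation.ReflTransGen (Step r H c) e f

variable {r : ℕ} {H : Finset V → Prop} {c : Finset V → Bool}

theorem linked_symm {e f : Finset V} (h : Linked r H c e f) : Linked r H c f e :=
  rtg_symm (fun _ _ h => ⟨h.1.symm, h.2.2.1, h.2.1, h.2.2.2.symm⟩) h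

theorem linked_colour {e f : Finset V} (h : Linked r H c e f) : c e = c f := by
  induction h with
  | refl => rfl
  | tail _ h1 ih => exact ih.trans h1.2.2.2

theorem linked_card {e f : Finset V} (h : Linked r H c e f) (he : e.card = r) :
    f.card = r := by
  induction h with
  | refl => exact he
  | tail _ h1 _ => exact h1.1.2.1

theorem linked_mem {e f : Finset V} (h : Linked r H c e f) (he : H e) : H f := by
  induction h with
  | refl => exact he
  | tail _ h1 _ => exact h1.2.2.1

theorem linked_of_near {e f : Finset V} (h : Near r e f) (he : H e) (hf : H f)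
    (hc : c e = c f) : Linked r H c e f :=
  Relation.ReflTransGen.single ⟨h, he, hf, hc⟩

open Classical in
/-- Indicator of the pairs with one member in the component of `a` and the other one in the
component of `b`. -/
noncomputable def edgeInd (r : ℕ) (H : Finset V → Prop) (c : Finset V → Bool)
    (a b e f : Finset V) : ZMod 2 :=
  if (Linked r H c a e ∧ Linked r H c b f) ∨ (Linked r H c b e ∧ Linked r H c a f)
  then 1 else 0

theorem edgeInd_zero_of_colour {a b e f : Finset V} (hab : c a ≠ c b) (hc : c e = c f) :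
    edgeInd r H c a b e f = 0 := by
  unfold edgeInd
  rw [if_neg]
  rintro (⟨h1, h2⟩ | ⟨h1, h2⟩)
  · exact hab ((linked_colour h1).trans (hc.trans (linked_colour h2).symm))
  · exact hab ((linked_colour h2).trans (hc.symm.trans (linked_colour h1).symm))

theorem edgeInd_symm (a b e f : Finset V) :
    edgeInd r H c a b e f = edgeInd r H c a b f e := by
  unfold edgeInd
  congr 1
  apply propext
  constructor
  · rintro (⟨h1, h2⟩ | ⟨h1, h2⟩)
    · exact Or.inr ⟨h2, h1⟩
    · exact Or.inl ⟨h2, h1⟩
  · rintro (⟨h1, h2⟩ | ⟨h1, h2⟩)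
    · exact Or.inr ⟨h2, h1⟩
    · exact Or.inl ⟨h2, h1⟩

theorem edgeInd_congr_left (a b : Finset V) {e e' : Finset V} (f : Finset V)
    (h : Linked r H c e e') : edgeInd r H c a b e f = edgeInd r H c a b e' f := by
  unfold edgeInd
  congr 1
  apply propext
  have h1 : ∀ z, Linked r H c z e ↔ Linked r H c z e' := fun z =>
    ⟨fun hz => Relation.ReflTransGen.trans hz h,
      fun hz => Relation.ReflTransGen.trans hz (linked_symm h)⟩
  rw [h1 a, h1 b]

theorem edgeInd_triangle {a b : Finset V} (hab : c a ≠ c b) {e f h : Finset V}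
    (he : H e) (hf : H f) (hh : H h) (hef : Near r e f) (hfh : Near r f h)
    (heh : Near r e h) :
    edgeInd r H c a b e f + edgeInd r H c a b f h + edgeInd r H c a b e h = 0 := by
  by_cases h1 : c e = c f
  · rw [edgeInd_zero_of_colour hab h1, zero_add,
      edgeInd_congr_left a b h (linked_of_near hef he hf h1)]
    exact CharTwo.add_self_eq_zero _
  by_cases h2 : c f = c h
  · rw [edgeInd_zero_of_colour hab h2, add_zero, edgeInd_symm a b e h, edgeInd_symm a b e f,
      edgeInd_congr_left a b e (linked_of_near hfh hf hh h2)]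
    exact CharTwo.add_self_eq_zero _
  have h3 : c e = c h := by
    cases hce : c e <;> cases hcf : c f <;> cases hch : c h <;> simp_all
  rw [edgeInd_zero_of_colour hab h3, add_zero, edgeInd_symm a b f h,
    edgeInd_congr_left a b f (linked_of_near heh he hh h3)]
  exact CharTwo.add_self_eq_zero _

theorem near_insert {r : ℕ} {A : Finset V} {x y : V} (hA : A.card + 1 = r) (hx : x ∉ A)
    (hy : y ∉ A) : Near r (insert x A) (insert y A) := by
  refine ⟨by rw [Finset.card_insert_of_notMem hx, hA],
    by rw [Finset.card_insert_of_notMem hy, hA], ?_⟩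
  have : A ⊆ insert x A ∩ insert y A := by
    intro z hz
    simp [hz]
  have := Finset.card_le_card this
  omega

theorem edgeInd_coc {a b : Finset V} (hab : c a ≠ c b) :
    Coc H r (edgeInd r H c a b) := by
  refine ⟨fun e f => edgeInd_symm a b e f, ?_, ?_⟩
  · intro D x y z hx hy hz hxy hxz hyz hD h1 h2 h3 _ _ _ _
    exact edgeInd_triangle hab h1 h2 h3 (near_insert hD hx hy) (near_insert hD hy hz)
      (near_insert hD hx hz)
  · intro D x y z hx hy hz hxy hxz hyz hD h1 h2 h3 _
    have hyx : y ∉ insert x D := by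
      rw [Finset.mem_insert, not_or]; exact ⟨hxy.symm, hy⟩
    have hzx : z ∉ insert x D := by
      rw [Finset.mem_insert, not_or]; exact ⟨hxz.symm, hz⟩
    have hxy' : x ∉ insert y D := by
      rw [Finset.mem_insert, not_or]; exact ⟨hxy, hx⟩
    have hzy : z ∉ insert y D := by
      rw [Finset.mem_insert, not_or]; exact ⟨hyz.symm, hz⟩
    have hxz' : x ∉ insert z D := by
      rw [Finset.mem_insert, not_or]; exact ⟨hxz, hx⟩
    have hyz' : y ∉ insert z D := by
      rw [Finset.mem_insert, not_or]; exact ⟨hyz, hy⟩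
    have k1 : Near r (insert x (insert y D)) (insert x (insert z D)) := by
      rw [Finset.insert_comm x y D, Finset.insert_comm x z D]
      exact near_insert (by rw [Finset.card_insert_of_notMem hx]; omega) hyx hzx
    have k2 : Near r (insert x (insert y D)) (insert y (insert z D)) := by
      rw [Finset.insert_comm y z D]
      exact near_insert (by rw [Finset.card_insert_of_notMem hy]; omega) hxy' hzy
    have k3 : Near r (insert x (insert z D)) (insert y (insert z D)) :=
      near_insert (by rw [Finset.card_insert_of_notMem hz]; omega) hxz' hyz'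
    have := edgeInd_triangle hab h1 h2 h3 k1 k3 k2
    rw [← this]
    ring

/-- `g` is a potential for the pair of components of `a` and `b`. -/
def IsPot (r : ℕ) (H : Finset V → Prop) (c : Finset V → Bool) (a b : Finset V)
    (g : Finset V → ZMod 2) : Prop :=
  ∀ e f, Near r e f → H e → H f → edgeInd r H c a b e f = g e + g f

theorem exists_isPot (hH : Rich r H) {a b : Finset V} (hab : c a ≠ c b) :
    ∃ g, IsPot r H c a b g := by
  obtain ⟨g, hg⟩ := Coc.exists_potential hH r le_rfl _ (edgeInd_coc (r := r) (H := H) hab)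
  refine ⟨g, ?_⟩
  intro e f hef he hf
  by_cases hne : e = f
  · subst hne
    rw [edgeInd_zero_of_colour hab rfl]
    exact (CharTwo.add_self_eq_zero _).symm
  · obtain ⟨A, x, y, hA, hx, hy, hxy, rfl, rfl⟩ := hef.exists_core hne
    apply hg A x y hx hy hxy hA he hf
    apply hH.free
    have h1 : x ∉ insert y A := by
      rw [Finset.mem_insert, not_or]; exact ⟨hxy, hx⟩
    rw [Finset.card_insert_of_notMem h1, Finset.card_insert_of_notMem hy]
    omega

theorem IsPot.eq_of_zero {a b : Finset V} {g : Finset V → ZMod 2} (hg : IsPot r H c a b g)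
    {e f : Finset V} (h : Near r e f) (he : H e) (hf : H f)
    (h0 : ¬ ((Linked r H c a e ∧ Linked r H c b f) ∨
      (Linked r H c b e ∧ Linked r H c a f))) : g e = g f := by
  have h1 := hg e f h he hf
  unfold edgeInd at h1
  rw [if_neg h0] at h1
  generalize g e = u1 at h1 ⊢
  generalize g f = u2 at h1 ⊢
  clear * - h1
  revert u1 u2
  decide

theorem IsPot.ne_of_edge {a b : Finset V} {g : Finset V → ZMod 2} (hg : IsPot r H c a b g)
    {e f : Finset V} (h : Near r e f) (he : H e) (hf : H f)
    (h0 : (Linked r H c a e ∧ Linked r H c b f) ∨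
      (Linked r H c b e ∧ Linked r H c a f)) : g e ≠ g f := by
  have h1 := hg e f h he hf
  unfold edgeInd at h1
  rw [if_pos h0] at h1
  generalize g e = u1 at h1 ⊢
  generalize g f = u2 at h1 ⊢
  clear * - h1
  revert u1 u2
  decide

theorem IsPot.eq_of_linked {a b : Finset V} {g : Finset V → ZMod 2} (hg : IsPot r H c a b g)
    (hab : c a ≠ c b) {e f : Finset V} (h : Linked r H c e f) : g e = g f := by
  induction h with
  | refl => rfl
  | tail _ h1 ih =>
    rw [ih]
    apply hg.eq_of_zero h1.1 h1.2.1 h1.2.2.1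
    rintro (⟨h2, h3⟩ | ⟨h2, h3⟩)
    · exact hab ((linked_colour h2).trans (h1.2.2.2.trans (linked_colour h3).symm))
    · exact hab ((linked_colour h3).trans (h1.2.2.2.symm.trans (linked_colour h2).symm))

end Components

section Main

variable {V : Type*} [DecidableEq V] [Fintype V] {r D : ℕ} {Y : Finset V → Prop}
  {c : Finset V → Bool}

/-- The weight functions bounded by one, of large total weight, that are non-positive on the
component of `a`. -/
def K (r D : ℕ) (Y : Finset V → Prop) (c : Finset V → Bool) (a : Finset V) : Set (V → ℝ) :=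
  {w | (2 * D : ℝ) < ∑ v, w v ∧ (∀ v, w v ≤ 1) ∧
    ∀ e, Linked r Y c a e → ∑ v ∈ e, w v ≤ 0}

theorem K_convex (a : Finset V) : Convex ℝ (K r D Y c a) := by
  intro w hw w' hw' s t hs ht hst
  refine ⟨?_, ?_, ?_⟩
  · simp only [Pi.add_apply, Pi.smul_apply, smul_eq_mul, Finset.sum_add_distrib,
      ← Finset.mul_sum]
    have h1 := hw.1
    have h2 := hw'.1
    rcases eq_or_lt_of_le hs with h | h
    · have : t = 1 := by linarith
      rw [← h, this]
      linarith
    · have h3 : s * (2 * D : ℝ) < s * ∑ v, w v := mul_lt_mul_of_pos_left h1 h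
      have h4 : t * (2 * D : ℝ) ≤ t * ∑ v, w' v := mul_le_mul_of_nonneg_left h2.le ht
      have h5 : s * (2 * D : ℝ) + t * (2 * D : ℝ) = 2 * D := by
        rw [← add_mul, hst, one_mul]
      linarith
  · intro v
    simp only [Pi.add_apply, Pi.smul_apply, smul_eq_mul]
    have h3 : s * w v ≤ s * 1 := mul_le_mul_of_nonneg_left (hw.2.1 v) hs
    have h4 : t * w' v ≤ t * 1 := mul_le_mul_of_nonneg_left (hw'.2.1 v) ht
    linarith
  · intro e he
    simp only [Pi.add_apply, Pi.smul_apply, smul_eq_mul, Finset.sum_add_distrib,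
      ← Finset.mul_sum]
    have h1 := mul_nonpos_of_nonneg_of_nonpos hs (hw.2.2 e he)
    have h2 := mul_nonpos_of_nonneg_of_nonpos ht (hw'.2.2 e he)
    linarith

theorem K_large {a : Finset V} {w : V → ℝ} (hw : w ∈ K r D Y c a) :
    2 * D < (univ.filter (fun v => 0 < w v)).card := by
  have h1 : ∑ v, w v ≤ ∑ v ∈ univ.filter (fun v => 0 < w v), w v := by
    rw [← Finset.sum_filter_add_sum_filter_not univ (fun v => 0 < w v)]
    have : ∑ v ∈ univ.filter (fun v => ¬ 0 < w v), w v ≤ 0 := by
      apply Finset.sum_nonpos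
      intro v hv
      exact not_lt.mp (Finset.mem_filter.mp hv).2
    linarith
  have h2 : ∑ v ∈ univ.filter (fun v => 0 < w v), w v ≤
      ∑ v ∈ univ.filter (fun v => 0 < w v), (1 : ℝ) :=
    Finset.sum_le_sum (fun v _ => hw.2.1 v)
  rw [Finset.sum_const, nsmul_eq_mul, mul_one] at h2
  have h3 : ((2 * D : ℕ) : ℝ) < ((univ.filter (fun v => 0 < w v)).card : ℝ) := by
    push_cast
    linarith [hw.1]
  exact_mod_cast h3

/-- The potential is constant on the faces that are positive for one `w`. -/
theorem pot_const_one (hY : Host r D Y) (hr : 1 ≤ r) {a b : Finset V}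
    {g : Finset V → ZMod 2} (hg : IsPot r Y c a b g) {w : V → ℝ} (hw : w ∈ K r D Y c a)
    {e f : Finset V} (he : e.card = r) (hf : f.card = r) (hYe : Y e) (hYf : Y f)
    (hpe : 0 < ∑ v ∈ e, w v) (hpf : 0 < ∑ v ∈ f, w v) : g e = g f := by
  have hpath := (hY.pos_all hr w (K_large hw)).2 e f he hf hYe hYf hpe hpf
  clear hpe he hYe
  induction hpath using Relation.ReflTransGen.head_induction_on with
  | refl => rfl
  | head h1 _ ih =>
    rw [← ih]
    apply hg.eq_of_zero h1.1 h1.2.1 h1.2.2.1
    rintro (⟨h2, h3⟩ | ⟨h2, h3⟩)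
    · exact absurd h1.2.2.2.1 (not_lt.mpr (hw.2.2 _ h2))
    · exact absurd h1.2.2.2.2 (not_lt.mpr (hw.2.2 _ h3))

/-- The potential takes the same value on all faces that are positive for some `w ∈ K`. -/
theorem pot_const (hY : Host r D Y) (hr : 1 ≤ r) {a b : Finset V}
    {g : Finset V → ZMod 2} (hg : IsPot r Y c a b g) {w w' : V → ℝ} (hw : w ∈ K r D Y c a)
    (hw' : w' ∈ K r D Y c a)
    {e f : Finset V} (he : e.card = r) (hf : f.card = r) (hYe : Y e) (hYf : Y f)
    (hpe : 0 < ∑ v ∈ e, w v) (hpf : 0 < ∑ v ∈ f, w' v) : g e = g f := by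
  by_contra hcon
  have hpre : IsPreconnected (K r D Y c a) := (K_convex a).isPreconnected
  let U : Set (V → ℝ) :=
    {z | ∃ h : Finset V, (h.card = r ∧ Y h) ∧ g h = g e ∧ 0 < ∑ v ∈ h, z v}
  let U' : Set (V → ℝ) :=
    {z | ∃ h : Finset V, (h.card = r ∧ Y h) ∧ g h ≠ g e ∧ 0 < ∑ v ∈ h, z v}
  have hopen : ∀ P : Finset V → Prop, IsOpen {z : V → ℝ | ∃ h : Finset V,
      (h.card = r ∧ Y h) ∧ P h ∧ 0 < ∑ v ∈ h, z v} := by
    intro P
    have : {z : V → ℝ | ∃ h : Finset V, (h.card = r ∧ Y h) ∧ P h ∧ 0 < ∑ v ∈ h, z v} =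
        ⋃ h : Finset V, {z : V → ℝ | (h.card = r ∧ Y h) ∧ P h ∧ 0 < ∑ v ∈ h, z v} := by
      ext z
      simp
    rw [this]
    apply isOpen_iUnion
    intro h
    by_cases h1 : (h.card = r ∧ Y h) ∧ P h
    · have : {z : V → ℝ | (h.card = r ∧ Y h) ∧ P h ∧ 0 < ∑ v ∈ h, z v} =
          {z : V → ℝ | 0 < ∑ v ∈ h, z v} := by
        ext z
        simp [h1.1, h1.2]
      rw [this]
      exact isOpen_lt continuous_const (by fun_prop)
    · have : {z : V → ℝ | (h.card = r ∧ Y h) ∧ P h ∧ 0 < ∑ v ∈ h, z v} = ∅ := by
        ext z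
        simp only [Set.mem_ofPred_eq, Set.mem_empty_iff_false, iff_false]
        rintro ⟨h2, h3, -⟩
        exact h1 ⟨h2, h3⟩
      rw [this]
      exact isOpen_empty
  have hU : IsOpen U := hopen (fun h => g h = g e)
  have hU' : IsOpen U' := hopen (fun h => g h ≠ g e)
  have hcov : K r D Y c a ⊆ U ∪ U' := by
    intro z hz
    obtain ⟨T, hT, hYT, hTp⟩ := (hY.pos_all hr z (K_large hz)).1
    by_cases hgT : g T = g e
    · exact Or.inl ⟨T, ⟨hT, hYT⟩, hgT, hTp⟩
    · exact Or.inr ⟨T, ⟨hT, hYT⟩, hgT, hTp⟩
  have h1 : (K r D Y c a ∩ U).Nonempty := ⟨w, hw, e, ⟨he, hYe⟩, rfl, hpe⟩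
  have h2 : (K r D Y c a ∩ U').Nonempty :=
    ⟨w', hw', f, ⟨hf, hYf⟩, fun h => hcon h.symm, hpf⟩
  obtain ⟨z, hz, ⟨p, ⟨hp, hYp⟩, hgp, hpp⟩, ⟨q, ⟨hq, hYq⟩, hgq, hpq⟩⟩ :=
    hpre U U' hU hU' hcov h1 h2
  exact hgq ((pot_const_one hY hr hg hz hq hp hYq hYp hpq hpp).trans hgp)

/-- The neighbouring component chosen for `a`. -/
theorem exists_next (hY : Host r D Y) (hr : 1 ≤ r) (hn : 2 * D < Fintype.card V)
    {G : Finset V → Finset V → Finset V → ZMod 2}
    (hG : ∀ a b, c a ≠ c b → IsPot r Y c a b (G a b)) {a : Finset V} (ha : a.card = r)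
    (hYa : Y a) (hK : (K r D Y c a).Nonempty) :
    ∃ b : Finset V, b.card = r ∧ Y b ∧ c a ≠ c b ∧ G a b b ≠ G a b a ∧
      ∀ w ∈ K r D Y c a, ∀ e : Finset V, e.card = r → Y e → 0 < ∑ v ∈ e, w v →
        G a b e ≠ G a b a := by
  obtain ⟨w, hw⟩ := hK
  obtain ⟨T, hT, hYT, hTp⟩ := (hY.pos_all hr w (K_large hw)).1
  have hTa : ¬ Linked r Y c a T := fun h => absurd hTp (not_lt.mpr (hw.2.2 _ h))
  have key : ∀ e, Relation.ReflTransGen (NearIn r Y) e T →
      (∃ b : Finset V, b.card = r ∧ Y b ∧ c a ≠ c b ∧ G a b b ≠ G a b a ∧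
        G a b T ≠ G a b a) ∨
      (¬ Linked r Y c a e ∧ ∀ b, c a ≠ c b → G a b e = G a b T) := by
    intro e h
    induction h using Relation.ReflTransGen.head_induction_on with
    | refl => exact Or.inr ⟨hTa, fun _ _ => rfl⟩
    | @head e f h1 _ ih =>
      obtain ⟨h1, hYe, hYf⟩ := h1
      rcases ih with ih | ⟨ih1, ih2⟩
      · exact Or.inl ih
      by_cases hae : Linked r Y c a e
      · left
        have hcol : c a ≠ c f := by
          intro hc
          apply ih1
          exact Relation.ReflTransGen.trans hae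
            (linked_of_near h1 hYe hYf ((linked_colour hae).symm.trans hc))
        have hpot := hG a f hcol
        have hne : G a f e ≠ G a f f :=
          hpot.ne_of_edge h1 hYe hYf (Or.inl ⟨hae, Relation.ReflTransGen.refl⟩)
        have heq : G a f a = G a f e := hpot.eq_of_linked hcol hae
        refine ⟨f, h1.2.1, hYf, hcol, ?_, ?_⟩
        · rw [heq]; exact hne.symm
        · rw [heq, ← ih2 f hcol]; exact hne.symm
      · right
        refine ⟨hae, fun b hb => ?_⟩
        rw [← ih2 b hb]
        apply (hG a b hb).eq_of_zero h1 hYe hYf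
        rintro (⟨h2, h3⟩ | ⟨h2, h3⟩)
        · exact hae h2
        · exact ih1 h3
  rcases key a (hY.near_connected hr hn a T ha hT hYa hYT) with
    ⟨b, hb1, hb2, hb3, hb4, hb5⟩ | ⟨h1, -⟩
  · refine ⟨b, hb1, hb2, hb3, hb4, ?_⟩
    intro w' hw' e he hYe hpe
    rw [pot_const hY hr (hG a b hb3) hw' hw he hT hYe hYT hpe hTp]
    exact hb5
  · exact absurd Relation.ReflTransGen.refl h1

/-- Either one component, or two components of different colours, meet every bounded weight
function of large total weight in a face of positive weight. -/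
theorem exists_pair (hY : Host r D Y) (hr : 1 ≤ r) (hn : 9 * D < Fintype.card V)
    (c : Finset V → Bool) :
    (∃ a : Finset V, a.card = r ∧ Y a ∧ ¬ (K r D Y c a).Nonempty) ∨
    (∃ a b : Finset V, a.card = r ∧ b.card = r ∧ Y a ∧ Y b ∧ c a ≠ c b ∧
      ¬ (K r D Y c a ∩ K r D Y c b).Nonempty) := by
  classical
  by_contra hcon
  rw [not_or] at hcon
  obtain ⟨hc1, hc2⟩ := hcon
  have hn2 : 2 * D < Fintype.card V := by omega
  have hK : ∀ a : Finset V, a.card = r → Y a → (K r D Y c a).Nonempty := by
    intro a ha hYa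
    by_contra h
    exact hc1 ⟨a, ha, hYa, h⟩
  have hG : ∀ a b : Finset V, ∃ g : Finset V → ZMod 2, c a ≠ c b → IsPot r Y c a b g := by
    intro a b
    by_cases hab : c a ≠ c b
    · obtain ⟨g, hg⟩ := exists_isPot (r := r) (hY.rich hn) hab
      exact ⟨g, fun _ => hg⟩
    · exact ⟨fun _ => 0, fun h => absurd h hab⟩
  choose G hG using hG
  have hnx : ∀ a : Finset V, ∃ b : Finset V, a.card = r → Y a → (b.card = r ∧ Y b ∧
      c a ≠ c b ∧ G a b b ≠ G a b a ∧
      ∀ w ∈ K r D Y c a, ∀ e : Finset V, e.card = r → Y e → 0 < ∑ v ∈ e, w v →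
        G a b e ≠ G a b a) := by
    intro a
    by_cases ha : a.card = r ∧ Y a
    · obtain ⟨b, hb⟩ := exists_next hY hr hn2 hG ha.1 ha.2 (hK a ha.1 ha.2)
      exact ⟨b, fun _ _ => hb⟩
    · exact ⟨a, fun h h' => absurd ⟨h, h'⟩ ha⟩
  choose nx hnx using hnx
  let S : Finset V → Finset (Finset V) := fun a =>
    univ.filter (fun e => (e.card = r ∧ Y e) ∧ G a (nx a) e ≠ G a (nx a) a)
  have hne : ((univ : Finset (Finset V)).filter (fun e => e.card = r ∧ Y e)).Nonempty := by
    obtain ⟨e, -, he1, he2⟩ := hY.exists_face univ (by rw [Finset.card_univ]; omega) r le_rfl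
    exact ⟨e, by simp [he1, he2]⟩
  obtain ⟨a, haP, hmin⟩ := Finset.exists_min_image
    ((univ : Finset (Finset V)).filter (fun e => e.card = r ∧ Y e))
    (fun a => (S a).card) hne
  have ha : a.card = r := (Finset.mem_filter.mp haP).2.1
  have hYa : Y a := (Finset.mem_filter.mp haP).2.2
  obtain ⟨hb, hYb, hab, hGab, hposa⟩ := hnx a ha hYa
  set b := nx a with hbdef
  obtain ⟨hd, hYd, hbd, hGbd, hposb⟩ := hnx b hb hYb
  set d := nx b with hddef
  have potab : IsPot r Y c a b (G a b) := hG a b hab
  have potbd : IsPot r Y c b d (G b d) := hG b d hbd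
  have hlink : Linked r Y c a d := by
    by_contra hnl
    have key : ∀ e, Relation.ReflTransGen (NearIn r Y) e b → G b d e ≠ G b d b →
        G a b e = G a b b := by
      intro e h
      induction h using Relation.ReflTransGen.head_induction_on with
      | refl => exact fun h => absurd rfl h
      | @head e f h1 _ ih =>
        obtain ⟨h1, hYe, hYf⟩ := h1
        intro hne
        have heb : ¬ Linked r Y c b e := fun h => hne (potbd.eq_of_linked hbd h).symm
        by_cases hfb : Linked r Y c b f
        · have hff : G b d b = G b d f := potbd.eq_of_linked hbd hfb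
          have hde : Linked r Y c d e := by
            by_contra hde
            apply hne
            rw [hff]
            apply potbd.eq_of_zero h1 hYe hYf
            rintro (⟨h2, h3⟩ | ⟨h2, h3⟩)
            · exact heb h2
            · exact hde h2
          have hae : ¬ Linked r Y c a e := fun h =>
            hnl (Relation.ReflTransGen.trans h (linked_symm hde))
          rw [potab.eq_of_linked hab hfb]
          apply potab.eq_of_zero h1 hYe hYf
          rintro (⟨h2, h3⟩ | ⟨h2, h3⟩)
          · exact hae h2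
          · exact heb h2
        · have h2 : G b d e = G b d f := by
            apply potbd.eq_of_zero h1 hYe hYf
            rintro (⟨h2, h3⟩ | ⟨h2, h3⟩)
            · exact heb h2
            · exact hfb h3
          rw [← ih (by rw [← h2]; exact hne)]
          apply potab.eq_of_zero h1 hYe hYf
          rintro (⟨h2, h3⟩ | ⟨h2, h3⟩)
          · exact hfb h3
          · exact heb h2
    have hsub : S b ⊆ S a := by
      intro e he
      simp only [S, Finset.mem_filter, Finset.mem_univ, true_and] at he ⊢
      refine ⟨he.1, ?_⟩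
      have := key e (hY.near_connected hr hn2 e b he.1.1 hb he.1.2 hYb) he.2
      rw [← hbdef, this]
      exact hGab
    have hbin : b ∈ S a := by
      simp only [S, Finset.mem_filter, Finset.mem_univ, true_and]
      exact ⟨⟨hb, hYb⟩, hGab⟩
    have hbout : b ∉ S b := by
      simp only [S, Finset.mem_filter, Finset.mem_univ, true_and]
      rintro ⟨-, h⟩
      exact h rfl
    have hlt : (S b).card < (S a).card :=
      Finset.card_lt_card ⟨hsub, fun h => hbout (h hbin)⟩
    have hle : (S a).card ≤ (S b).card := hmin b (by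
      rw [Finset.mem_filter]
      exact ⟨Finset.mem_univ _, hb, hYb⟩)
    omega
  apply hc2
  refine ⟨a, b, ha, hb, hYa, hYb, hab, ?_⟩
  rintro ⟨w, hwa, hwb⟩
  obtain ⟨T, hT, hYT, hTp⟩ := (hY.pos_all hr w (K_large hwa)).1
  have h1 := hposa w hwa T hT hYT hTp
  have h2 := hposb w hwb T hT hYT hTp
  have hedge : ∀ e f, edgeInd r Y c a b e f = edgeInd r Y c b d e f := by
    intro e f
    unfold edgeInd
    congr 1
    apply propext
    have h3 : ∀ z, Linked r Y c d z ↔ Linked r Y c a z := fun z =>
      ⟨fun hz => Relation.ReflTransGen.trans hlink hz,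
        fun hz => Relation.ReflTransGen.trans (linked_symm hlink) hz⟩
    rw [h3 e, h3 f]
    constructor
    · rintro (⟨p, q⟩ | ⟨p, q⟩)
      · exact Or.inr ⟨p, q⟩
      · exact Or.inl ⟨p, q⟩
    · rintro (⟨p, q⟩ | ⟨p, q⟩)
      · exact Or.inr ⟨p, q⟩
      · exact Or.inl ⟨p, q⟩
  have hconst : ∀ e, Relation.ReflTransGen (NearIn r Y) e b →
      G a b e + G b d e = G a b b + G b d b := by
    intro e h
    induction h using Relation.ReflTransGen.head_induction_on with
    | refl => rfl
    | @head e f h1 _ ih =>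
      obtain ⟨h1, hYe, hYf⟩ := h1
      rw [← ih]
      have p1 := potab e f h1 hYe hYf
      have p2 := potbd e f h1 hYe hYf
      rw [hedge, p2] at p1
      generalize G a b e = u1 at *
      generalize G a b f = u2 at *
      generalize G b d e = u3 at *
      generalize G b d f = u4 at *
      clear * - p1
      revert u1 u2 u3 u4
      decide
  have h3 := hconst T (hY.near_connected hr hn2 T b hT hb hYT hYb)
  generalize G a b T = u1 at *
  generalize G b d T = u2 at *
  generalize G a b b = u3 at *
  generalize G b d b = u4 at *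
  generalize G a b a = u5 at *
  clear * - h1 h2 h3 hGab
  revert u1 u2 u3 u4 u5
  decide

end Main

section Duality

variable {V : Type*} [DecidableEq V] [Fintype V]

/-- Linear duality: if no weight function bounded by one of total weight more than `Θ` is
non-positive on all members of `F`, then `F` has a fractional matching that misses vertex
weight at most `Θ`. -/
theorem farkas_near (r : ℕ) (hr : 1 ≤ r) (Θ : ℝ) (hΘ0 : 0 ≤ Θ) (hΘ : Θ < Fintype.card V)
    (F : Finset (Finset V)) (hF : ∀ e ∈ F, e.card = r)
    (h : ¬ ∃ w : V → ℝ, Θ < ∑ v, w v ∧ (∀ v, w v ≤ 1) ∧ ∀ e ∈ F, ∑ v ∈ e, w v ≤ 0) :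
    ∃ x : Finset V → ℝ, (∀ e, 0 ≤ x e) ∧ (∀ e, e ∉ F → x e = 0) ∧
      (∀ v, ∑ e with v ∈ e, x e ≤ 1) ∧ (Fintype.card V - Θ) / r ≤ ∑ e, x e := by
  classical
  have hr0 : (0 : ℝ) < r := by exact_mod_cast hr
  have hn0 : (0 : ℝ) < Fintype.card V := lt_of_le_of_lt hΘ0 hΘ
  have hVne : Nonempty V := by
    rw [← Fintype.card_pos_iff]
    exact_mod_cast hn0
  set n : ℝ := (Fintype.card V : ℝ) with hn
  let ind : Finset V → (V → ℝ) := fun e v => if v ∈ e then 1 else 0
  let p : Finset V × V → (V → ℝ) := fun q =>
    ((n - Θ) / r) • ind q.1 + Θ • (Pi.single q.2 (1 : ℝ) : V → ℝ)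
  let one : V → ℝ := fun _ => 1
  have hp : one ∈ convexHull ℝ (((F ×ˢ univ).image p : Finset (V → ℝ)) : Set (V → ℝ)) := by
    by_contra hcon
    have hclosed : IsClosed (convexHull ℝ
        (((F ×ˢ univ).image p : Finset (V → ℝ)) : Set (V → ℝ))) :=
      ((F ×ˢ univ).image p).finite_toSet.isClosed_convexHull ℝ
    obtain ⟨f, u, hf, hu⟩ := geometric_hahn_banach_closed_point
      (convex_convexHull ℝ _) hclosed hcon
    have hlin : ∀ z : V → ℝ, f z = ∑ v, z v * f (Pi.single v 1) := by
      intro z
      conv_lhs => rw [← Finset.univ_sum_single z]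
      rw [map_sum]
      apply Finset.sum_congr _root_.rfl
      intro v _
      rw [← smul_eq_mul, ← map_smul]
      congr 1
      ext t
      by_cases ht : t = v
      · subst ht; simp
      · simp [ht]
    obtain ⟨v0, -, hv0⟩ := Finset.exists_max_image (univ : Finset V)
      (fun v => f (Pi.single v 1)) Finset.univ_nonempty
    have hsum : f one = ∑ v, f (Pi.single v 1) := by
      rw [hlin]
      simp [one]
    have hle : ∑ v, f (Pi.single v 1) ≤ n * f (Pi.single v0 1) := by
      calc ∑ v, f (Pi.single v 1) ≤ ∑ _v : V, f (Pi.single v0 1) :=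
            Finset.sum_le_sum (fun v hv => hv0 v hv)
        _ = n * f (Pi.single v0 1) := by
            rw [Finset.sum_const, nsmul_eq_mul, Finset.card_univ]
    generalize hM : f (Pi.single v0 1) = M at hle
    rw [hsum] at hu
    have hpos : 0 < n * M - u := by linarith
    have hnΘ : 0 < n - Θ := by linarith
    have hκ : 0 < (n - Θ) / (n * M - u) := div_pos hnΘ hpos
    have hκ' : (n - Θ) / (n * M - u) * (n * M - u) = n - Θ := by
      field_simp
    generalize hκd : (n - Θ) / (n * M - u) = κ at hκ hκ'
    apply h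
    refine ⟨fun v => 1 - κ * (M - f (Pi.single v 1)), ?_, ?_, ?_⟩
    · rw [Finset.sum_sub_distrib, ← Finset.mul_sum, Finset.sum_sub_distrib, Finset.sum_const,
        Finset.sum_const, nsmul_eq_mul, nsmul_eq_mul, Finset.card_univ, mul_one, ← hn]
      have h1 : κ * (n * M - ∑ v, f (Pi.single v 1)) < κ * (n * M - u) :=
        mul_lt_mul_of_pos_left (by linarith) hκ
      rw [hκ'] at h1
      linarith
    · intro v
      have h1 : f (Pi.single v 1) ≤ M := by
        rw [← hM]
        exact hv0 v (Finset.mem_univ v)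
      have h2 : 0 ≤ κ * (M - f (Pi.single v 1)) := mul_nonneg hκ.le (by linarith)
      simp only
      linarith
    · intro e he
      have h1 := hf (p (e, v0)) (subset_convexHull ℝ _ (by
        rw [Finset.coe_image]
        refine ⟨(e, v0), ?_, _root_.rfl⟩
        simp [he]))
      have h2 : f (p (e, v0)) = (n - Θ) / r * ∑ v ∈ e, f (Pi.single v 1) + Θ * M := by
        simp only [p]
        rw [map_add, map_smul, map_smul, hlin (ind e), hM]
        simp only [ind, ite_mul, one_mul, zero_mul, Finset.sum_ite_mem, Finset.univ_inter,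
          smul_eq_mul]
      rw [h2] at h1
      rw [Finset.sum_sub_distrib, ← Finset.mul_sum, Finset.sum_sub_distrib, Finset.sum_const,
        Finset.sum_const, nsmul_eq_mul, nsmul_eq_mul, hF e he, mul_one]
      generalize hS : ∑ v ∈ e, f (Pi.single v 1) = S at h1
      have h3 : (n - Θ) * S < r * (u - Θ * M) := by
        have h4 : r * ((n - Θ) / r * S + Θ * M) < r * u := mul_lt_mul_of_pos_left h1 hr0
        have h5 : r * ((n - Θ) / r * S + Θ * M) = (n - Θ) * S + r * (Θ * M) := by
          field_simp
        rw [h5] at h4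
        linarith
      have h7 : r * (n * M - u) < (n - Θ) * (r * M - S) := by
        have : (n - Θ) * (r * M - S) = r * (n * M) - r * (Θ * M) - (n - Θ) * S := by ring
        rw [this]
        linarith
      have h8 : (n - Θ) * r < (n - Θ) * (κ * (r * M - S)) := by
        have h9 : κ * (r * (n * M - u)) < κ * ((n - Θ) * (r * M - S)) :=
          mul_lt_mul_of_pos_left h7 hκ
        have h10 : κ * (r * (n * M - u)) = (n - Θ) * r := by
          rw [← hκ']; ring
        have h11 : κ * ((n - Θ) * (r * M - S)) = (n - Θ) * (κ * (r * M - S)) := by ring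
        rw [h10, h11] at h9
        exact h9
      have h12 : (r : ℝ) < κ * (r * M - S) := lt_of_mul_lt_mul_left h8 hnΘ.le
      linarith
  obtain ⟨ι, _, w, z, hw0, hw1, hz, hsum⟩ := mem_convexHull_iff_exists_fintype.1 hp
  have hq : ∀ i, ∃ q : Finset V × V, q.1 ∈ F ∧ p q = z i := by
    intro i
    have h1 := hz i
    rw [Finset.coe_image] at h1
    obtain ⟨q, hq1, hq2⟩ := h1
    refine ⟨q, ?_, hq2⟩
    rw [Finset.mem_coe, Finset.mem_product] at hq1
    exact hq1.1
  choose q hqF hqz using hq
  have hκ0 : 0 ≤ (n - Θ) / r := div_nonneg (by linarith) hr0.le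
  refine ⟨fun e => (n - Θ) / r * ∑ i, (if (q i).1 = e then w i else 0), ?_, ?_, ?_, ?_⟩
  · intro e
    apply mul_nonneg hκ0
    apply Finset.sum_nonneg
    intro i _
    split_ifs
    · exact hw0 i
    · exact le_refl _
  · intro e he
    simp only
    rw [Finset.sum_eq_zero, mul_zero]
    intro i _
    rw [if_neg]
    intro h1
    exact he (h1 ▸ hqF i)
  · intro v
    simp only
    rw [← Finset.mul_sum, Finset.sum_comm]
    have h1 : ∀ i, ∑ e with v ∈ e, (if (q i).1 = e then w i else 0) =
        w i * ind (q i).1 v := by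
      intro i
      rw [Finset.sum_ite_eq]
      simp [ind]
    rw [Finset.sum_congr _root_.rfl (fun i _ => h1 i)]
    have h2 := congrFun hsum v
    simp only [Finset.sum_apply, Pi.smul_apply, smul_eq_mul, one] at h2
    have h3 : ∀ i, w i * z i v =
        (n - Θ) / r * (w i * ind (q i).1 v) + w i * (Θ * (Pi.single (q i).2 (1 : ℝ) : V → ℝ) v) := by
      intro i
      rw [← hqz i]
      simp only [p, Pi.add_apply, Pi.smul_apply, smul_eq_mul]
      ring
    rw [Finset.sum_congr _root_.rfl (fun i _ => h3 i), Finset.sum_add_distrib,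
      ← Finset.mul_sum] at h2
    have h4 : 0 ≤ ∑ i, w i * (Θ * (Pi.single (q i).2 (1 : ℝ) : V → ℝ) v) := by
      apply Finset.sum_nonneg
      intro i _
      apply mul_nonneg (hw0 i)
      apply mul_nonneg hΘ0
      by_cases hv : v = (q i).2
      · subst hv; simp
      · simp [hv]
    linarith
  · simp only
    rw [← Finset.mul_sum, Finset.sum_comm]
    have h1 : ∀ i, ∑ e : Finset V, (if (q i).1 = e then w i else 0) = w i := by
      intro i
      rw [Finset.sum_ite_eq]
      simp
    rw [Finset.sum_congr _root_.rfl (fun i _ => h1 i), hw1, mul_one]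

end Duality

section Cleaning

variable {V : Type*} [DecidableEq V] [Fintype V]

open Classical in
/-- `Bd H T 0 A`: `A` is no edge of `H`; `Bd H T (t + 1) A`: more than `T` one-point
extensions of `A` satisfy `Bd H T t`. -/
def Bd (H : Finset V → Prop) (T : ℕ) : ℕ → Finset V → Prop
  | 0, A => ¬ H A
  | t + 1, A => T < (univ.filter (fun x => x ∉ A ∧ Bd H T t (insert x A))).card

open Classical in
theorem bd_count (H : Finset V → Prop) (T r : ℕ) : ∀ (t : ℕ) (A : Finset V),
    A.card + t = r → Bd H T t A →
    (T + 1) ^ t ≤ t.factorial *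
      ((univ : Finset (Finset V)).filter (fun e => e.card = r ∧ A ⊆ e ∧ ¬ H e)).card := by
  intro t
  induction t with
  | zero =>
    intro A hA hB
    rw [Nat.factorial_zero, one_mul, pow_zero]
    apply Finset.card_pos.mpr
    refine ⟨A, ?_⟩
    rw [Finset.mem_filter]
    exact ⟨Finset.mem_univ _, by omega, Finset.Subset.refl _, hB⟩
  | succ t ih =>
    intro A hA hB
    have hS : T + 1 ≤ (univ.filter (fun x => x ∉ A ∧ Bd H T t (insert x A))).card := hB
    set S := univ.filter (fun x => x ∉ A ∧ Bd H T t (insert x A)) with hSdef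
    set N := (univ : Finset (Finset V)).filter (fun e => e.card = r ∧ A ⊆ e ∧ ¬ H e) with hN
    have h1 : ∀ x ∈ S, (T + 1) ^ t ≤ t.factorial * (N.bipartiteAbove (fun x e => x ∈ e) x).card := by
      intro x hx
      have hx' := (Finset.mem_filter.mp hx).2
      have h2 := ih (insert x A) (by rw [Finset.card_insert_of_notMem hx'.1]; omega) hx'.2
      have h3 : (univ : Finset (Finset V)).filter
          (fun e => e.card = r ∧ insert x A ⊆ e ∧ ¬ H e) =
          N.bipartiteAbove (fun x e => x ∈ e) x := by
        ext e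
        simp only [Finset.mem_filter, Finset.mem_univ, true_and, Finset.bipartiteAbove, hN,
          Finset.insert_subset_iff]
        tauto
      rw [h3] at h2
      exact h2
    have h4 : ∑ x ∈ S, (N.bipartiteAbove (fun x e => x ∈ e) x).card ≤ (t + 1) * N.card := by
      rw [Finset.sum_card_bipartiteAbove_eq_sum_card_bipartiteBelow]
      have h5 : ∀ e ∈ N, (S.bipartiteBelow (fun x e => x ∈ e) e).card ≤ t + 1 := by
        intro e he
        have he' := (Finset.mem_filter.mp he).2
        have h6 : S.bipartiteBelow (fun x e => x ∈ e) e ⊆ e \ A := by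
          intro x hx
          simp only [Finset.bipartiteBelow, Finset.mem_filter] at hx
          rw [Finset.mem_sdiff]
          exact ⟨hx.2, (Finset.mem_filter.mp hx.1).2.1⟩
        have h7 := Finset.card_le_card h6
        rw [Finset.card_sdiff_of_subset he'.2.1] at h7
        omega
      have h8 := Finset.sum_le_card_nsmul N _ (t + 1) h5
      rw [smul_eq_mul, mul_comm] at h8
      exact h8
    calc (T + 1) ^ (t + 1) = (T + 1) * (T + 1) ^ t := by rw [pow_succ, mul_comm]
      _ ≤ S.card * (T + 1) ^ t := Nat.mul_le_mul_right _ hS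
      _ = ∑ _x ∈ S, (T + 1) ^ t := by rw [Finset.sum_const, smul_eq_mul]
      _ ≤ ∑ x ∈ S, t.factorial * (N.bipartiteAbove (fun x e => x ∈ e) x).card :=
          Finset.sum_le_sum h1
      _ = t.factorial * ∑ x ∈ S, (N.bipartiteAbove (fun x e => x ∈ e) x).card := by
          rw [Finset.mul_sum]
      _ ≤ t.factorial * ((t + 1) * N.card) := Nat.mul_le_mul_left _ h4
      _ = (t + 1).factorial * N.card := by rw [Nat.factorial_succ]; ring

/-- The sets all of whose subsets are good. -/
def Clean (H : Finset V → Prop) (T r : ℕ) (A : Finset V) : Prop :=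
  r < A.card ∨ ∀ B : Finset V, B ⊆ A → ¬ Bd H T (r - B.card) B

theorem Clean.edge {H : Finset V → Prop} {T r : ℕ} {A : Finset V} (h : Clean H T r A)
    (hA : A.card = r) : H A := by
  rcases h with h | h
  · omega
  · have h1 := h A (Finset.Subset.refl _)
    rw [hA, Nat.sub_self] at h1
    unfold Bd at h1
    exact not_not.mp h1

theorem clean_host (H : Finset V → Prop) (T r : ℕ) (h0 : ¬ Bd H T r ∅) :
    Host r (r + 1 + 2 ^ r * T) (Clean H T r) := by
  classical
  refine ⟨fun A hA => Or.inl hA, ?_, ?_, ?_⟩
  · intro A B hBA hA hYA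
    rcases hYA with h | h
    · omega
    · exact Or.inr (fun C hC => h C (hC.trans hBA))
  · right
    intro B hB
    rw [Finset.subset_empty.mp hB, Finset.card_empty, Nat.sub_zero]
    exact h0
  · intro F hF hFc
    by_cases hFr : r ≤ F.card
    · have h1 : Bad (Clean H T r) F ⊆ F := by
        intro z hz
        rw [mem_bad] at hz
        rcases hz with hz | hz
        · exact hz
        · by_contra hzF
          apply hz
          left
          rw [Finset.card_insert_of_notMem hzF]
          omega
      have h2 := Finset.card_le_card h1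
      have h3 : 0 ≤ 2 ^ r * T := Nat.zero_le _
      omega
    · have hgood : ∀ B : Finset V, B ⊆ F → ¬ Bd H T (r - B.card) B := by
        rcases hF with h | h
        · omega
        · exact h
      let S : Finset V → Finset V := fun B =>
        univ.filter (fun x => x ∉ B ∧ Bd H T (r - (B.card + 1)) (insert x B))
      have h1 : Bad (Clean H T r) F ⊆ F ∪ F.powerset.biUnion S := by
        intro z hz
        rw [mem_bad] at hz
        rw [Finset.mem_union]
        by_cases hzF : z ∈ F
        · exact Or.inl hzF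
        right
        rcases hz with hz | hz
        · exact absurd hz hzF
        unfold Clean at hz
        rw [not_or] at hz
        obtain ⟨-, hz⟩ := hz
        push Not at hz
        obtain ⟨B, hB, hBd⟩ := hz
        by_cases hzB : z ∈ B
        · rw [Finset.mem_biUnion]
          refine ⟨B.erase z, ?_, ?_⟩
          · rw [Finset.mem_powerset]
            intro v hv
            have h2 := hB (Finset.mem_of_mem_erase hv)
            rw [Finset.mem_insert] at h2
            rcases h2 with h2 | h2
            · exact absurd h2 (Finset.ne_of_mem_erase hv)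
            · exact h2
          · simp only [S, Finset.mem_filter, Finset.mem_univ, true_and]
            refine ⟨Finset.notMem_erase _ _, ?_⟩
            rw [Finset.insert_erase hzB, Finset.card_erase_add_one hzB]
            exact hBd
        · exfalso
          apply hgood B _ hBd
          intro v hv
          have h2 := hB hv
          rw [Finset.mem_insert] at h2
          rcases h2 with h2 | h2
          · exact absurd (h2 ▸ hv) hzB
          · exact h2
      have h2 : ∀ B ∈ F.powerset, (S B).card ≤ T := by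
        intro B hB
        rw [Finset.mem_powerset] at hB
        have h3 := hgood B hB
        have h4 := Finset.card_le_card hB
        have h5 : r - B.card = (r - (B.card + 1)) + 1 := by omega
        rw [h5] at h3
        unfold Bd at h3
        rw [not_lt] at h3
        convert h3
      have h3 := Finset.card_le_card h1
      have h4 := Finset.card_union_le F (F.powerset.biUnion S)
      have h5 := Finset.card_biUnion_le_card_mul F.powerset S T h2
      rw [Finset.card_powerset] at h5
      have h6 : 2 ^ F.card * T ≤ 2 ^ r * T :=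
        Nat.mul_le_mul_right _ (Nat.pow_le_pow_right (by norm_num) (by omega))
      omega

end Cleaning

/-- `R` is a tight component of colour `col` of the `r`-graph with edge set `H`: it consists
of all edges that can be reached from one edge of colour `col` by steps between edges of the
same colour that share at least `r - 1` vertices. -/
def IsTightComponent {V : Type*} [DecidableEq V] (r : ℕ) (H : Finset (Finset V))
    (c : Finset V → Bool) (col : Bool) (R : Set (Finset V)) : Prop :=
  ∃ a : Finset V, a.card = r ∧ a ∈ H ∧ c a = col ∧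
    ∀ e, e ∈ R ↔ Linked r (fun e => e ∈ H) c a e

theorem linked_mono {V : Type*} [DecidableEq V] {r : ℕ} {H H' : Finset V → Prop}
    {c : Finset V → Bool} (hH : ∀ e, e.card = r → H e → H' e) {a e : Finset V}
    (h : Linked r H c a e) : Linked r H' c a e := by
  induction h with
  | refl => exact Relation.ReflTransGen.refl
  | tail _ h1 ih =>
    exact Relation.ReflTransGen.tail ih
      ⟨h1.1, hH _ h1.1.1 h1.2.1, hH _ h1.1.2.1 h1.2.2.1, h1.2.2.2⟩

/-- The theorem for a host given by its clean faces. -/
theorem host_result {V : Type*} [DecidableEq V] [Fintype V] {r D : ℕ} (hr : 1 ≤ r)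
    {Y : Finset V → Prop} (hY : Host r D Y) (hn : 9 * D < Fintype.card V)
    (H : Finset (Finset V)) (hYH : ∀ e, e.card = r → Y e → e ∈ H) (c : Finset V → Bool) :
    ∃ R B : Set (Finset V),
      (R = ∅ ∨ IsTightComponent r H c true R) ∧
      (B = ∅ ∨ IsTightComponent r H c false B) ∧
      ∃ x : Finset V → ℝ, (∀ e, 0 ≤ x e) ∧ (∀ e, x e ≠ 0 → e ∈ R ∨ e ∈ B) ∧
        (∀ v : V, ∑ e with v ∈ e, x e ≤ 1) ∧
        ((Fintype.card V : ℝ) - 2 * D) / r ≤ ∑ e, x e := by
  classical
  have hΘ0 : (0 : ℝ) ≤ 2 * D := by positivity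
  have hΘ : (2 * D : ℝ) < Fintype.card V := by
    have : 2 * D < Fintype.card V := by omega
    exact_mod_cast this
  have main : ∀ F : Finset (Finset V), (∀ e ∈ F, e.card = r) →
      (¬ ∃ w : V → ℝ, (2 * D : ℝ) < ∑ v, w v ∧ (∀ v, w v ≤ 1) ∧
        ∀ e ∈ F, ∑ v ∈ e, w v ≤ 0) →
      ∀ R B : Set (Finset V), (∀ e ∈ F, e ∈ R ∨ e ∈ B) →
      ∃ x : Finset V → ℝ, (∀ e, 0 ≤ x e) ∧ (∀ e, x e ≠ 0 → e ∈ R ∨ e ∈ B) ∧
        (∀ v : V, ∑ e with v ∈ e, x e ≤ 1) ∧
        ((Fintype.card V : ℝ) - 2 * D) / r ≤ ∑ e, x e := by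
    intro F hF hK R B hRB
    obtain ⟨x, hx0, hx1, hx2, hx3⟩ := farkas_near r hr (2 * D) hΘ0 hΘ F hF hK
    refine ⟨x, hx0, fun e he => ?_, hx2, hx3⟩
    by_contra hcon
    exact he (hx1 e (fun h => hcon (hRB e h)))
  rcases exists_pair hY hr hn c with ⟨a, ha, hYa, hK⟩ | ⟨a, b, ha, hb, hYa, hYb, hab, hK⟩
  · have hno : ¬ ∃ w : V → ℝ, (2 * D : ℝ) < ∑ v, w v ∧ (∀ v, w v ≤ 1) ∧
        ∀ e ∈ (univ : Finset (Finset V)).filter (fun e => Linked r Y c a e),
          ∑ v ∈ e, w v ≤ 0 := by
      rintro ⟨w, hw1, hw2, hw3⟩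
      apply hK
      exact ⟨w, hw1, hw2, fun e he => hw3 e (by simp [he])⟩
    have hcard : ∀ e ∈ (univ : Finset (Finset V)).filter (fun e => Linked r Y c a e),
        e.card = r := fun e he => linked_card (Finset.mem_filter.mp he).2 ha
    cases hca : c a with
    | true =>
      refine ⟨{e | Linked r (fun e => e ∈ H) c a e}, ∅,
        Or.inr ⟨a, ha, hYH a ha hYa, hca, fun e => Iff.rfl⟩, Or.inl rfl, ?_⟩
      refine main _ hcard hno _ _ ?_
      intro e he
      exact Or.inl (linked_mono hYH (Finset.mem_filter.mp he).2)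
    | false =>
      refine ⟨∅, {e | Linked r (fun e => e ∈ H) c a e}, Or.inl rfl,
        Or.inr ⟨a, ha, hYH a ha hYa, hca, fun e => Iff.rfl⟩, ?_⟩
      refine main _ hcard hno _ _ ?_
      intro e he
      exact Or.inr (linked_mono hYH (Finset.mem_filter.mp he).2)
  · have hno : ¬ ∃ w : V → ℝ, (2 * D : ℝ) < ∑ v, w v ∧ (∀ v, w v ≤ 1) ∧
        ∀ e ∈ (univ : Finset (Finset V)).filter
          (fun e => Linked r Y c a e ∨ Linked r Y c b e), ∑ v ∈ e, w v ≤ 0 := by
      rintro ⟨w, hw1, hw2, hw3⟩
      apply hK
      exact ⟨w, ⟨hw1, hw2, fun e he => hw3 e (by simp [he])⟩,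
        ⟨hw1, hw2, fun e he => hw3 e (by simp [he])⟩⟩
    have hcard : ∀ e ∈ (univ : Finset (Finset V)).filter
        (fun e => Linked r Y c a e ∨ Linked r Y c b e), e.card = r := by
      intro e he
      rcases (Finset.mem_filter.mp he).2 with h | h
      · exact linked_card h ha
      · exact linked_card h hb
    have hab' : ∀ e ∈ (univ : Finset (Finset V)).filter
        (fun e => Linked r Y c a e ∨ Linked r Y c b e),
        Linked r (fun e => e ∈ H) c a e ∨ Linked r (fun e => e ∈ H) c b e := by
      intro e he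
      rcases (Finset.mem_filter.mp he).2 with h | h
      · exact Or.inl (linked_mono hYH h)
      · exact Or.inr (linked_mono hYH h)
    cases hca : c a with
    | true =>
      have hcb : c b = false := by
        cases h : c b
        · rfl
        · exact absurd (hca.trans h.symm) hab
      refine ⟨{e | Linked r (fun e => e ∈ H) c a e}, {e | Linked r (fun e => e ∈ H) c b e},
        Or.inr ⟨a, ha, hYH a ha hYa, hca, fun e => Iff.rfl⟩,
        Or.inr ⟨b, hb, hYH b hb hYb, hcb, fun e => Iff.rfl⟩, ?_⟩
      exact main _ hcard hno _ _ hab'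
    | false =>
      have hcb : c b = true := by
        cases h : c b
        · exact absurd (hca.trans h.symm) hab
        · rfl
      refine ⟨{e | Linked r (fun e => e ∈ H) c b e}, {e | Linked r (fun e => e ∈ H) c a e},
        Or.inr ⟨b, hb, hYH b hb hYb, hcb, fun e => Iff.rfl⟩,
        Or.inr ⟨a, ha, hYH a ha hYa, hca, fun e => Iff.rfl⟩, ?_⟩
      exact main _ hcard hno _ _ (fun e he => (hab' e he).symm)

/-- For every `r ≥ 1` and `γ > 0` there are `ε > 0` and `n₀` such that in every red/blue
coloured `r`-graph on `n ≥ n₀` vertices with at least `(1 - ε) (n choose r)` edges there are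
a red tight component `R` and a blue tight component `B` (either may be empty) whose union
has a fractional matching of total weight at least `(1 - γ) n / r`. -/
theorem result (r : ℕ) (hr : 1 ≤ r) (γ : ℝ) (hγ : 0 < γ) :
    ∃ ε : ℝ, 0 < ε ∧ ∃ n₀ : ℕ, ∀ (V : Type*) [DecidableEq V] [Fintype V]
      (H : Finset (Finset V)) (c : Finset V → Bool), n₀ ≤ Fintype.card V →
      (∀ e ∈ H, e.card = r) →
      (1 - ε) * ((Fintype.card V).choose r : ℝ) ≤ (H.card : ℝ) →
      ∃ R B : Set (Finset V),
        (R = ∅ ∨ IsTightComponent r H c true R) ∧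
        (B = ∅ ∨ IsTightComponent r H c false B) ∧
        ∃ x : Finset V → ℝ, (∀ e, 0 ≤ x e) ∧ (∀ e, x e ≠ 0 → e ∈ R ∨ e ∈ B) ∧
          (∀ v : V, ∑ e with v ∈ e, x e ≤ 1) ∧
          (1 - γ) * ((Fintype.card V : ℝ) / r) ≤ ∑ e, x e := by
  have hr0 : (0 : ℝ) < r := by exact_mod_cast hr
  let γ' : ℝ := min γ 1
  have hγ'0 : 0 < γ' := lt_min hγ one_pos
  have hγ'1 : γ' ≤ 1 := min_le_right _ _
  have hγ'γ : γ' ≤ γ := min_le_left _ _
  let δ : ℝ := γ' / (64 * 2 ^ r)
  have hδ : 0 < δ := by positivity
  refine ⟨δ ^ r, by positivity, ⌈18 * ((r : ℝ) + 1) / γ'⌉₊ + 1, ?_⟩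
  intro V _ _ H c hV hH hHc
  classical
  set n : ℕ := Fintype.card V with hn
  have hnbig : 18 * ((r : ℝ) + 1) / γ' < n := by
    have h1 := Nat.le_ceil (18 * ((r : ℝ) + 1) / γ')
    have h2 : ((⌈18 * ((r : ℝ) + 1) / γ'⌉₊ + 1 : ℕ) : ℝ) ≤ n := by exact_mod_cast hV
    push_cast at h2
    linarith
  have hnbig' : 18 * ((r : ℝ) + 1) < γ' * n := by
    rw [div_lt_iff₀ hγ'0] at hnbig
    linarith
  have hn0 : (0 : ℝ) < n := by
    by_contra hcon
    have : γ' * n ≤ 0 := mul_nonpos_of_nonneg_of_nonpos hγ'0.le (not_lt.mp hcon)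
    linarith
  have hγn : γ' * n ≤ n := by
    have := mul_le_mul_of_nonneg_right hγ'1 hn0.le
    linarith
  let T : ℕ := ⌊δ * n⌋₊
  have hT1 : (T : ℝ) ≤ δ * n := Nat.floor_le (by positivity)
  have hT2 : δ * n < T + 1 := Nat.lt_floor_add_one _
  have hD : ((r + 1 + 2 ^ r * T : ℕ) : ℝ) ≤ r + 1 + γ' * n / 64 := by
    push_cast
    have h1 : (2 : ℝ) ^ r * T ≤ 2 ^ r * (δ * n) :=
      mul_le_mul_of_nonneg_left hT1 (by positivity)
    have h2 : (2 : ℝ) ^ r * (δ * n) = γ' * n / 64 := by
      simp only [δ]
      field_simp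
    linarith
  have h9D : 9 * (r + 1 + 2 ^ r * T) < n := by
    have h1 : ((9 * (r + 1 + 2 ^ r * T) : ℕ) : ℝ) < (n : ℝ) := by
      have h2 : ((9 * (r + 1 + 2 ^ r * T) : ℕ) : ℝ) =
          9 * ((r + 1 + 2 ^ r * T : ℕ) : ℝ) := by push_cast; ring
      rw [h2]
      linarith
    exact_mod_cast h1
  have hempty : ¬ Bd (fun e => e ∈ H) T r ∅ := by
    intro hB
    have h1 := bd_count (fun e => e ∈ H) T r r ∅ (by simp) hB
    have h2 : (univ : Finset (Finset V)).filter
        (fun e => e.card = r ∧ ∅ ⊆ e ∧ ¬ (e ∈ H)) = (univ : Finset V).powersetCard r \ H := by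
      ext e
      simp [Finset.mem_powersetCard]
    have h3 : ((univ : Finset V).powersetCard r \ H).card = n.choose r - H.card := by
      rw [Finset.card_sdiff_of_subset, Finset.card_powersetCard, Finset.card_univ]
      intro e he
      rw [Finset.mem_powersetCard]
      exact ⟨Finset.subset_univ _, hH e he⟩
    have h4 : H.card ≤ n.choose r := by
      rw [hn, ← Finset.card_univ, ← Finset.card_powersetCard]
      apply Finset.card_le_card
      intro e he
      rw [Finset.mem_powersetCard]
      exact ⟨Finset.subset_univ _, hH e he⟩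
    have h5 : ((T : ℝ) + 1) ^ r ≤ r.factorial * ((n.choose r : ℝ) - H.card) := by
      have h6 : (T + 1) ^ r ≤ r.factorial * (n.choose r - H.card) := by
        rw [← h3, ← h2]
        convert h1
      have h7 : (((T + 1) ^ r : ℕ) : ℝ) ≤ ((r.factorial * (n.choose r - H.card) : ℕ) : ℝ) := by
        exact_mod_cast h6
      rw [Nat.cast_mul, Nat.cast_sub h4] at h7
      push_cast at h7
      exact h7
    have h8 : (r.factorial : ℝ) * ((n.choose r : ℝ) - H.card) ≤
        r.factorial * (δ ^ r * n.choose r) := by
      apply mul_le_mul_of_nonneg_left _ (by positivity)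
      linarith
    have h9 : (r.factorial : ℝ) * (n.choose r : ℝ) ≤ (n : ℝ) ^ r := by
      have h10 : r.factorial * n.choose r ≤ n ^ r := by
        rw [← Nat.descFactorial_eq_factorial_mul_choose]
        exact Nat.descFactorial_le_pow n r
      exact_mod_cast h10
    have h11 : (r.factorial : ℝ) * (δ ^ r * n.choose r) ≤ δ ^ r * n ^ r := by
      have h12 : (r.factorial : ℝ) * (δ ^ r * n.choose r) =
          δ ^ r * (r.factorial * n.choose r) := by ring
      rw [h12]
      exact mul_le_mul_of_nonneg_left h9 (by positivity)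
    have h13 : (δ * n) ^ r < ((T : ℝ) + 1) ^ r :=
      pow_lt_pow_left₀ hT2 (by positivity) (by omega)
    rw [mul_pow] at h13
    linarith
  have hY := clean_host (fun e => e ∈ H) T r hempty
  obtain ⟨R, B, hR, hB, x, hx0, hx1, hx2, hx3⟩ := host_result hr hY h9D H
    (fun e he hYe => hYe.edge he) c
  refine ⟨R, B, hR, hB, x, hx0, hx1, hx2, le_trans ?_ hx3⟩
  rw [← hn]
  have h14 : (1 - γ) * ((n : ℝ) / r) = ((1 - γ) * n) / r := by ring
  rw [h14]
  apply div_le_div_of_nonneg_right _ hr0.le
  have h15 : γ' * n ≤ γ * n := mul_le_mul_of_nonneg_right hγ'γ hn0.le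
  linarith

end Pool.Agent.Results.MP_952639_co.AlmostCompleteHosts
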