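import Mathlib

open Finset

namespace Pool.Agent.Results.MP_952639_co.FractionalTwoComponents

/-- Two `r`-sets that share at least `r - 1` vertices (an `r`-set is near itself). -/
def Near {V : Type*} [DecidableEq V] (r : ℕ) (e f : Finset V) : Prop :=
  e.card = r ∧ f.card = r ∧ r ≤ (e ∩ f).card + 1

section Cohomology

variable {V : Type*} [DecidableEq V]

theorem Near.symm {r : ℕ} {e f : Finset V} (h : Near r e f) : Near r f e :=
  ⟨h.2.1, h.1, by rw [Finset.inter_comm]; exact h.2.2⟩

theorem Near.rfl {r : ℕ} {e : Finset V} (h : e.card = r) : Near r e e :=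
  ⟨h, h, by simp [h]⟩

theorem near_insert {r : ℕ} {A : Finset V} {x y : V} (hA : A.card = r) (hx : x ∉ A)
    (hy : y ∉ A) : Near (r + 1) (insert x A) (insert y A) := by
  refine ⟨by rw [Finset.card_insert_of_notMem hx, hA],
    by rw [Finset.card_insert_of_notMem hy, hA], ?_⟩
  have : A ⊆ insert x A ∩ insert y A := by
    intro z hz
    simp [hz]
  have := Finset.card_le_card this
  omega

theorem Near.exists_core {r : ℕ} {e f : Finset V} (h : Near r e f) (hne : e ≠ f) :
    ∃ (A : Finset V) (x y : V), A.card + 1 = r ∧ x ∉ A ∧ y ∉ A ∧ x ≠ y ∧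
      e = insert x A ∧ f = insert y A := by
  obtain ⟨he, hf, hI⟩ := h
  have h1 : (e \ f).card + (e ∩ f).card = e.card := Finset.card_sdiff_add_card_inter e f
  have h2 : (f \ e).card + (f ∩ e).card = f.card := Finset.card_sdiff_add_card_inter f e
  rw [Finset.inter_comm f e] at h2
  have h3 : (e \ f).Nonempty := by
    rw [Finset.sdiff_nonempty]
    intro hsub
    exact hne (Finset.eq_of_subset_of_card_le hsub (by omega))
  have h4 : 0 < (e \ f).card := Finset.card_pos.mpr h3
  obtain ⟨x, hx⟩ := Finset.card_eq_one.mp (by omega : (e \ f).card = 1)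
  obtain ⟨y, hy⟩ := Finset.card_eq_one.mp (by omega : (f \ e).card = 1)
  have hx1 : x ∈ e \ f := by rw [hx]; simp
  have hy1 : y ∈ f \ e := by rw [hy]; simp
  rw [Finset.mem_sdiff] at hx1 hy1
  refine ⟨e ∩ f, x, y, by omega, ?_, ?_, ?_, ?_, ?_⟩
  · intro h
    exact hx1.2 (Finset.mem_inter.mp h).2
  · intro h
    exact hy1.2 (Finset.mem_inter.mp h).1
  · rintro rfl
    exact hx1.2 hy1.1
  · ext z
    have : z ∈ e \ f ↔ z = x := by rw [hx]; simp
    rw [Finset.mem_sdiff] at this
    simp only [Finset.mem_insert, Finset.mem_inter]
    constructor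
    · intro hz
      by_cases hzf : z ∈ f
      · exact Or.inr ⟨hz, hzf⟩
      · exact Or.inl (this.mp ⟨hz, hzf⟩)
    · rintro (rfl | h)
      · exact hx1.1
      · exact h.1
  · ext z
    have : z ∈ f \ e ↔ z = y := by rw [hy]; simp
    rw [Finset.mem_sdiff] at this
    simp only [Finset.mem_insert, Finset.mem_inter]
    constructor
    · intro hz
      by_cases hzf : z ∈ e
      · exact Or.inr ⟨hzf, hz⟩
      · exact Or.inl (this.mp ⟨hz, hzf⟩)
    · rintro (rfl | h)
      · exact hy1.1
      · exact h.2

theorem sdiff_core {A : Finset V} {x y : V} (hy : y ∉ A) (hxy : x ≠ y) :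
    insert y A \ insert x A = {y} := by
  ext z
  simp only [Finset.mem_sdiff, Finset.mem_insert, Finset.mem_singleton, not_or]
  constructor
  · rintro ⟨h | h, h1, h2⟩
    · exact h
    · exact absurd h h2
  · rintro rfl
    exact ⟨Or.inl _root_.rfl, fun h => hxy h.symm, hy⟩

/-- A function on pairs of near `r`-sets with values in the two element field that is
additive on triangles. -/
def Cocycle (r : ℕ) (φ : Finset V → Finset V → ZMod 2) : Prop :=
  ∀ e f h, Near r e f → Near r f h → Near r e h → φ e h = φ e f + φ f h

theorem Cocycle.self {r : ℕ} {φ : Finset V → Finset V → ZMod 2} (hφ : Cocycle r φ)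
    {e : Finset V} (he : e.card = r) : φ e e = 0 := by
  have h := hφ e e e (Near.rfl he) (Near.rfl he) (Near.rfl he)
  generalize φ e e = a at h ⊢
  revert a
  decide

theorem Cocycle.symm {r : ℕ} {φ : Finset V → Finset V → ZMod 2} (hφ : Cocycle r φ)
    {e f : Finset V} (h : Near r e f) : φ f e = φ e f := by
  have h1 := hφ e f e h h.symm (Near.rfl h.1)
  rw [hφ.self h.1] at h1
  generalize φ e f = a at h1 ⊢
  generalize φ f e = b at h1 ⊢
  revert a b
  decide

/-- Every such function is the difference of a function on `r`-sets. -/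
theorem Cocycle.exists_potential (r : ℕ) : ∀ (φ : Finset V → Finset V → ZMod 2),
    Cocycle r φ → ∃ g : Finset V → ZMod 2, ∀ e f, Near r e f → φ e f = g e + g f := by
  induction r with
  | zero =>
    intro φ hφ
    refine ⟨fun _ => 0, ?_⟩
    intro e f h
    have he : e = ∅ := Finset.card_eq_zero.mp h.1
    have hf : f = ∅ := Finset.card_eq_zero.mp h.2.1
    subst he hf
    rw [hφ.self h.1]
    simp
  | succ r ih =>
    intro φ hφ
    have hh : ∀ A : Finset V, ∃ h : V → ZMod 2, A.card = r → ∀ x y, x ∉ A → y ∉ A →
        φ (insert x A) (insert y A) = h x + h y := by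
      intro A
      by_cases hA : A.card = r ∧ ∃ x0, x0 ∉ A
      · obtain ⟨hA, x0, hx0⟩ := hA
        refine ⟨fun x => φ (insert x0 A) (insert x A), fun _ x y hx hy => ?_⟩
        have h1 := hφ _ _ _ (near_insert hA hx hx0) (near_insert hA hx0 hy)
          (near_insert hA hx hy)
        rw [h1, hφ.symm (near_insert hA hx0 hx)]
      · refine ⟨fun _ => 0, fun hA' x y hx hy => ?_⟩
        exact absurd ⟨hA', x, hx⟩ hA
    choose h hh using hh
    let ψ : Finset V → Finset V → ZMod 2 := fun A B =>
      (∑ x ∈ B \ A, h A x) + ∑ x ∈ A \ B, h B x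
    have ψself : ∀ A, ψ A A = 0 := by
      intro A
      simp [ψ]
    have ψsymm : ∀ A B, ψ A B = ψ B A := by
      intro A B
      simp only [ψ]
      rw [add_comm]
    have ψcore : ∀ (D : Finset V) (a b : V), a ∉ D → b ∉ D → a ≠ b →
        ψ (insert a D) (insert b D) = h (insert a D) b + h (insert b D) a := by
      intro D a b ha hb hab
      simp only [ψ]
      rw [sdiff_core hb hab, sdiff_core ha hab.symm, Finset.sum_singleton,
        Finset.sum_singleton]
    have hψ : Cocycle r ψ := by
      intro A B C hAB hBC hAC
      by_cases e1 : A = B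
      · subst e1
        rw [ψself, zero_add]
      by_cases e2 : B = C
      · subst e2
        rw [ψself, add_zero]
      by_cases e3 : A = C
      · subst e3
        rw [ψself, ψsymm B A]
        generalize ψ A B = t
        revert t
        decide
      obtain ⟨D, a, b, hD, ha, hb, hab, hA', hB'⟩ := hAB.exists_core e1
      have hAc : A.card = r := hAB.1
      have hBc : B.card = r := hBC.1
      have hCc : C.card = r := hBC.2.1
      by_cases hDC : D ⊆ C
      · -- common core
        have h1 : (C \ D).card + D.card = C.card := by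
          rw [Finset.card_sdiff_of_subset hDC]
          have := Finset.card_le_card hDC
          omega
        obtain ⟨z, hz⟩ := Finset.card_eq_one.mp (by omega : (C \ D).card = 1)
        have hzm : z ∈ C \ D := by rw [hz]; simp
        rw [Finset.mem_sdiff] at hzm
        have hC' : C = insert z D := by
          rw [← Finset.union_sdiff_of_subset hDC, hz]
          ext t
          simp
        have hza : a ≠ z := by
          rintro rfl
          exact e3 (hA'.trans hC'.symm)
        have hzb : b ≠ z := by
          rintro rfl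
          exact e2 (hB'.trans hC'.symm)
        have haB : a ∉ B := by
          rw [hB', Finset.mem_insert, not_or]; exact ⟨hab, ha⟩
        have hbA : b ∉ A := by
          rw [hA', Finset.mem_insert, not_or]; exact ⟨hab.symm, hb⟩
        have hzA : z ∉ A := by
          rw [hA', Finset.mem_insert, not_or]; exact ⟨hza.symm, hzm.2⟩
        have hzB : z ∉ B := by
          rw [hB', Finset.mem_insert, not_or]; exact ⟨hzb.symm, hzm.2⟩
        have haC : a ∉ C := by
          rw [hC', Finset.mem_insert, not_or]; exact ⟨hza, ha⟩
        have hbC : b ∉ C := by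
          rw [hC', Finset.mem_insert, not_or]; exact ⟨hzb, hb⟩
        have p1 : ψ A B = h A b + h B a := by
          have := ψcore D a b ha hb hab
          rw [← hA', ← hB'] at this
          exact this
        have p2 : ψ B C = h B z + h C b := by
          have := ψcore D b z hb hzm.2 hzb
          rw [← hC', ← hB'] at this
          exact this
        have p3 : ψ A C = h A z + h C a := by
          have := ψcore D a z ha hzm.2 hza
          rw [← hC', ← hA'] at this
          exact this
        have q1 := hh A hAc b z hbA hzA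
        have q2 := hh B hBc a z haB hzB
        have q3 := hh C hCc a b haC hbC
        have i1 : insert a B = insert b A := by
          rw [hA', hB', Finset.insert_comm]
        have i2 : insert a C = insert z A := by
          rw [hA', hC', Finset.insert_comm]
        have i3 : insert b C = insert z B := by
          rw [hB', hC', Finset.insert_comm]
        rw [i1] at q2
        rw [i2, i3] at q3
        have n1 : Near (r + 1) (insert b A) (insert z A) := near_insert hAc hbA hzA
        have n2 : Near (r + 1) (insert z A) (insert z B) := by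
          rw [← i2, ← i3]; exact near_insert hCc haC hbC
        have n3 : Near (r + 1) (insert b A) (insert z B) := by
          rw [← i1]; exact near_insert hBc haB hzB
        have q4 := hφ _ _ _ n1 n2 n3
        rw [q1, q2, q3] at q4
        rw [p1, p2, p3]
        generalize h A b = u1 at *
        generalize h A z = u2 at *
        generalize h B a = u3 at *
        generalize h B z = u4 at *
        generalize h C a = u5 at *
        generalize h C b = u6 at *
        clear * - q4
        revert u1 u2 u3 u4 u5 u6
        decide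
      · -- common cover
        rw [Finset.not_subset] at hDC
        obtain ⟨d, hdD, hdC⟩ := hDC
        have hdA : d ∈ A := by rw [hA']; exact Finset.mem_insert_of_mem hdD
        have hdB : d ∈ B := by rw [hB']; exact Finset.mem_insert_of_mem hdD
        obtain ⟨D1, x1, y1, hD1, hx1, hy1, hxy1, hA1, hC1⟩ := hAC.exists_core e3
        obtain ⟨D2, x2, y2, hD2, hx2, hy2, hxy2, hB2, hC2⟩ := hBC.exists_core e2
        have ed1 : d = x1 := by
          rw [hA1, Finset.mem_insert] at hdA
          rcases hdA with hdA | hdA
          · exact hdA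
          · exact absurd (by rw [hC1]; exact Finset.mem_insert_of_mem hdA) hdC
        have ed2 : d = x2 := by
          rw [hB2, Finset.mem_insert] at hdB
          rcases hdB with hdB | hdB
          · exact hdB
          · exact absurd (by rw [hC2]; exact Finset.mem_insert_of_mem hdB) hdC
        have haD1 : a ∈ C := by
          have : a ∈ A := by rw [hA']; exact Finset.mem_insert_self _ _
          rw [hA1, Finset.mem_insert] at this
          rcases this with h0 | h0
          · exfalso
            rw [← ed1] at h0
            exact ha (h0 ▸ hdD)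
          · rw [hC1]; exact Finset.mem_insert_of_mem h0
        have hbD2 : b ∈ C := by
          have : b ∈ B := by rw [hB']; exact Finset.mem_insert_self _ _
          rw [hB2, Finset.mem_insert] at this
          rcases this with h0 | h0
          · exfalso
            rw [← ed2] at h0
            exact hb (h0 ▸ hdD)
          · rw [hC2]; exact Finset.mem_insert_of_mem h0
        have hbA : b ∉ A := by
          rw [hA', Finset.mem_insert, not_or]; exact ⟨hab.symm, hb⟩
        have haB : a ∉ B := by
          rw [hB', Finset.mem_insert, not_or]; exact ⟨hab, ha⟩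
        have ey1 : b = y1 := by
          rw [hC1, Finset.mem_insert] at hbD2
          rcases hbD2 with h0 | h0
          · exact h0
          · exact absurd (by rw [hA1]; exact Finset.mem_insert_of_mem h0) hbA
        have ey2 : a = y2 := by
          rw [hC2, Finset.mem_insert] at haD1
          rcases haD1 with h0 | h0
          · exact h0
          · exact absurd (by rw [hB2]; exact Finset.mem_insert_of_mem h0) haB
        have p1 : ψ A B = h A b + h B a := by
          have := ψcore D a b ha hb hab
          rw [← hA', ← hB'] at this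
          exact this
        have p2 : ψ B C = h B a + h C d := by
          have := ψcore D2 x2 y2 hx2 hy2 hxy2
          rw [← hB2, ← hC2, ← ed2, ← ey2] at this
          exact this
        have p3 : ψ A C = h A b + h C d := by
          have := ψcore D1 x1 y1 hx1 hy1 hxy1
          rw [← hA1, ← hC1, ← ed1, ← ey1] at this
          exact this
        rw [p1, p2, p3]
        generalize h A b = u1
        generalize h B a = u2
        generalize h C d = u3
        clear * -
        revert u1 u2 u3
        decide
    obtain ⟨k, hk⟩ := ih ψ hψ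
    have hg : ∀ e : Finset V, ∃ t : ZMod 2, e.card = r + 1 → ∀ y ∈ e,
        t = h (e.erase y) y + k (e.erase y) := by
      intro e
      by_cases he : e.card = r + 1
      · have hne : e.Nonempty := Finset.card_pos.mp (by omega)
        obtain ⟨y0, hy0⟩ := hne
        refine ⟨h (e.erase y0) y0 + k (e.erase y0), fun _ y hy => ?_⟩
        by_cases hyy : y0 = y
        · subst hyy; rfl
        have c1 : (e.erase y0).card = r := by rw [Finset.card_erase_of_mem hy0]; omega
        have c2 : (e.erase y).card = r := by rw [Finset.card_erase_of_mem hy]; omega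
        have hyD : y ∉ (e.erase y0).erase y := Finset.notMem_erase _ _
        have hy0D : y0 ∉ (e.erase y0).erase y := fun hc =>
          Finset.notMem_erase y0 e (Finset.mem_of_mem_erase hc)
        have hA : e.erase y0 = insert y ((e.erase y0).erase y) :=
          (Finset.insert_erase (Finset.mem_erase.mpr ⟨fun h => hyy h.symm, hy⟩)).symm
        have hB : e.erase y = insert y0 ((e.erase y0).erase y) := by
          rw [Finset.erase_right_comm]
          exact (Finset.insert_erase (Finset.mem_erase.mpr ⟨hyy, hy0⟩)).symm
        have hn : Near r (e.erase y0) (e.erase y) := by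
          refine ⟨c1, c2, ?_⟩
          have hs : (e.erase y0).erase y ⊆ e.erase y0 ∩ e.erase y := by
            intro z hz
            rw [Finset.mem_inter]
            refine ⟨Finset.mem_of_mem_erase hz, ?_⟩
            rw [Finset.erase_right_comm] at hz
            exact Finset.mem_of_mem_erase hz
          have hc := Finset.card_le_card hs
          rw [Finset.card_erase_of_mem
            (Finset.mem_erase.mpr ⟨fun h => hyy h.symm, hy⟩), c1] at hc
          omega
        have q1 := hk _ _ hn
        have q2 := ψcore ((e.erase y0).erase y) y y0 hyD hy0D (fun h => hyy h.symm)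
        rw [← hA, ← hB] at q2
        rw [q2] at q1
        generalize h (e.erase y0) y0 = u1 at *
        generalize h (e.erase y) y = u2 at *
        generalize k (e.erase y0) = u3 at *
        generalize k (e.erase y) = u4 at *
        clear * - q1
        revert u1 u2 u3 u4
        decide
      · exact ⟨0, fun h => absurd h he⟩
    choose g hg using hg
    refine ⟨g, ?_⟩
    intro e f hef
    by_cases hne : e = f
    · subst hne
      rw [hφ.self hef.1]
      generalize g e = t
      revert t
      decide
    · obtain ⟨A, x, y, hA, hx, hy, hxy, he, hf⟩ := hef.exists_core hne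
      have hA' : A.card = r := by omega
      have q1 := hh A hA' x y hx hy
      have q2 := hg e hef.1 x (by rw [he]; exact Finset.mem_insert_self _ _)
      have q3 := hg f hef.2.1 y (by rw [hf]; exact Finset.mem_insert_self _ _)
      rw [← he, ← hf] at q1
      have i1 : e.erase x = A := by rw [he]; exact Finset.erase_insert hx
      have i2 : f.erase y = A := by rw [hf]; exact Finset.erase_insert hy
      rw [i1] at q2
      rw [i2] at q3
      rw [q1, q2, q3]
      generalize h A x = u1
      generalize h A y = u2
      generalize k A = u3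
      clear * -
      revert u1 u2 u3
      decide

end Cohomology


section Weights

variable {V : Type*} [DecidableEq V] [Fintype V]

/-- Consecutive near `r`-sets, both of positive weight. -/
def PosStep (r : ℕ) (w : V → ℝ) (e f : Finset V) : Prop :=
  Near r e f ∧ 0 < ∑ v ∈ e, w v ∧ 0 < ∑ v ∈ f, w v

theorem exists_top (r : ℕ) (hr : 1 ≤ r) (hn : r ≤ Fintype.card V) (w : V → ℝ)
    (hw : 0 < ∑ v, w v) :
    ∃ T : Finset V, T.card = r ∧ 0 < ∑ v ∈ T, w v ∧
      ∀ e : Finset V, e.card = r → 0 < ∑ v ∈ e, w v →
        Relation.ReflTransGen (PosStep r w) e T := by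
  have hne : ((univ : Finset V).powersetCard r).Nonempty :=
    Finset.powersetCard_nonempty.mpr (by rw [Finset.card_univ]; exact hn)
  obtain ⟨T, hT, hmax⟩ := Finset.exists_max_image ((univ : Finset V).powersetCard r)
    (fun e => ∑ v ∈ e, w v) hne
  have hTc : T.card = r := (Finset.mem_powersetCard.mp hT).2
  have hswap : ∀ x, x ∉ T → ∀ y ∈ T, w x ≤ w y := by
    intro x hx y hy
    have hx' : x ∉ T.erase y := fun h => hx (Finset.mem_of_mem_erase h)
    have h1 : insert x (T.erase y) ∈ (univ : Finset V).powersetCard r := by
      rw [Finset.mem_powersetCard]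
      refine ⟨Finset.subset_univ _, ?_⟩
      rw [Finset.card_insert_of_notMem hx', Finset.card_erase_of_mem hy]
      omega
    have h2 : ∑ v ∈ insert x (T.erase y), w v ≤ ∑ v ∈ T, w v := hmax _ h1
    rw [Finset.sum_insert hx'] at h2
    have h3 := Finset.add_sum_erase T w hy
    linarith
  have hTpos : 0 < ∑ v ∈ T, w v := by
    by_contra hcon
    rw [not_lt] at hcon
    have hTne : T.Nonempty := Finset.card_pos.mp (by omega)
    have h1 : ∃ y ∈ T, w y ≤ 0 := by
      by_contra hno
      push Not at hno
      have := Finset.sum_pos hno hTne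
      linarith
    obtain ⟨y, hy, hwy⟩ := h1
    have h2 : ∑ v ∈ Tᶜ, w v ≤ 0 := by
      apply Finset.sum_nonpos
      intro x hx
      exact (hswap x (Finset.mem_compl.mp hx) y hy).trans hwy
    have h3 := Finset.sum_add_sum_compl T w
    linarith
  refine ⟨T, hTc, hTpos, ?_⟩
  have key : ∀ (m : ℕ) (e : Finset V), (e \ T).card = m → e.card = r →
      0 < ∑ v ∈ e, w v → Relation.ReflTransGen (PosStep r w) e T := by
    intro m
    induction m with
    | zero =>
      intro e hm he _
      have hsub : e ⊆ T := Finset.sdiff_eq_empty_iff_subset.mp (Finset.card_eq_zero.mp hm)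
      have : e = T := Finset.eq_of_subset_of_card_le hsub (by omega)
      rw [this]
    | succ m ih =>
      intro e hm he hpos
      have h1 : (e \ T).card + (e ∩ T).card = e.card := Finset.card_sdiff_add_card_inter e T
      have h2 : (T \ e).card + (T ∩ e).card = T.card := Finset.card_sdiff_add_card_inter T e
      rw [Finset.inter_comm T e] at h2
      obtain ⟨x, hx⟩ : (e \ T).Nonempty := Finset.card_pos.mp (by omega)
      obtain ⟨y, hy⟩ : (T \ e).Nonempty := Finset.card_pos.mp (by omega)
      rw [Finset.mem_sdiff] at hx hy
      have hy' : y ∉ e.erase x := fun h => hy.2 (Finset.mem_of_mem_erase h)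
      have c1 : (e.erase x).card + 1 = r := by
        rw [Finset.card_erase_of_mem hx.1]; omega
      have hec : (insert y (e.erase x)).card = r := by
        rw [Finset.card_insert_of_notMem hy']; exact c1
      have hsum : ∑ v ∈ e, w v ≤ ∑ v ∈ insert y (e.erase x), w v := by
        rw [Finset.sum_insert hy']
        have h3 := Finset.add_sum_erase e w hx.1
        have h4 := hswap x hx.2 y hy.1
        linarith
      have hdiff : insert y (e.erase x) \ T = (e \ T).erase x := by
        ext z
        simp only [Finset.mem_sdiff, Finset.mem_insert, Finset.mem_erase]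
        constructor
        · rintro ⟨h | h, hz⟩
          · exact absurd (h ▸ hy.1) hz
          · exact ⟨h.1, h.2, hz⟩
        · rintro ⟨h1, h2, h3⟩
          exact ⟨Or.inr ⟨h1, h2⟩, h3⟩
      have hm' : (insert y (e.erase x) \ T).card = m := by
        rw [hdiff, Finset.card_erase_of_mem (Finset.mem_sdiff.mpr hx)]
        omega
      have hnear : Near r e (insert y (e.erase x)) := by
        refine ⟨he, hec, ?_⟩
        have hs : e.erase x ⊆ e ∩ insert y (e.erase x) := by
          intro z hz
          rw [Finset.mem_inter]
          exact ⟨Finset.mem_of_mem_erase hz, Finset.mem_insert_of_mem hz⟩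
        have := Finset.card_le_card hs
        omega
      exact Relation.ReflTransGen.head ⟨hnear, hpos, lt_of_lt_of_le hpos hsum⟩
        (ih _ hm' hec (lt_of_lt_of_le hpos hsum))
  intro e he hpos
  exact key _ e _root_.rfl he hpos

theorem rtg_symm {α : Type*} {R : α → α → Prop} (h : ∀ a b, R a b → R b a) {a b : α}
    (hab : Relation.ReflTransGen R a b) : Relation.ReflTransGen R b a := by
  induction hab with
  | refl => exact Relation.ReflTransGen.refl
  | tail _ h1 ih => exact Relation.ReflTransGen.head (h _ _ h1) ih

/-- The graph of all `r`-sets is connected. -/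
theorem near_connected (r : ℕ) (hr : 1 ≤ r) (hn : r ≤ Fintype.card V) (e f : Finset V)
    (he : e.card = r) (hf : f.card = r) : Relation.ReflTransGen (Near r) e f := by
  have hpos : ∀ g : Finset V, g.card = r → 0 < ∑ v ∈ g, (fun _ : V => (1 : ℝ)) v := by
    intro g hg
    simp only [Finset.sum_const, nsmul_eq_mul, mul_one, hg]
    exact_mod_cast hr
  have htot : 0 < ∑ v : V, (fun _ : V => (1 : ℝ)) v := by
    simp only [Finset.sum_const, nsmul_eq_mul, mul_one, Finset.card_univ]
    exact_mod_cast (lt_of_lt_of_le hr hn)
  obtain ⟨T, -, -, hT⟩ := exists_top r hr hn (fun _ : V => (1 : ℝ)) htot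
  have h1 : Relation.ReflTransGen (Near r) e T :=
    Relation.ReflTransGen.mono (fun _ _ h => h.1) _ _ (hT e he (hpos e he))
  have h2 : Relation.ReflTransGen (Near r) f T :=
    Relation.ReflTransGen.mono (fun _ _ h => h.1) _ _ (hT f hf (hpos f hf))
  exact h1.trans (rtg_symm (fun _ _ h => h.symm) h2)

/-- Linear duality: if no weight function of positive total weight is non-positive on all
members of `F`, then `F` has a perfect fractional matching. -/
theorem farkas (r : ℕ) (hr : 1 ≤ r) (hn : r ≤ Fintype.card V) (F : Finset (Finset V))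
    (hF : ∀ e ∈ F, e.card = r)
    (h : ¬ ∃ w : V → ℝ, 0 < ∑ v, w v ∧ ∀ e ∈ F, ∑ v ∈ e, w v ≤ 0) :
    ∃ x : Finset V → ℝ, (∀ e, 0 ≤ x e) ∧ (∀ e, e ∉ F → x e = 0) ∧
      ∀ v, ∑ e with v ∈ e, x e = 1 := by
  classical
  have hr0 : (0 : ℝ) < r := by exact_mod_cast hr
  have hn0 : (0 : ℝ) < Fintype.card V := by exact_mod_cast (lt_of_lt_of_le hr hn)
  let ind : Finset V → (V → ℝ) := fun e v => if v ∈ e then 1 else 0
  have hinj : Function.Injective ind := by
    intro e f hef
    ext v
    have := congrFun hef v
    simp only [ind] at this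
    by_cases h1 : v ∈ e <;> by_cases h2 : v ∈ f <;> simp_all
  let p : V → ℝ := fun _ => (r : ℝ) / Fintype.card V
  have hp : p ∈ convexHull ℝ ((F.image ind : Finset (V → ℝ)) : Set (V → ℝ)) := by
    by_contra hcon
    have hclosed : IsClosed (convexHull ℝ ((F.image ind : Finset (V → ℝ)) : Set (V → ℝ))) :=
      (F.image ind).finite_toSet.isClosed_convexHull ℝ
    obtain ⟨f, u, hf, hu⟩ := geometric_hahn_banach_closed_point
      (convex_convexHull ℝ _) hclosed hcon
    have hlin : ∀ z : V → ℝ, f z = ∑ v, z v * f (Pi.single v 1) := by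
      intro z
      conv_lhs => rw [← Finset.univ_sum_single z]
      rw [map_sum]
      apply Finset.sum_congr _root_.rfl
      intro v _
      rw [← smul_eq_mul, ← map_smul]
      congr 1
      ext t
      by_cases ht : t = v
      · subst ht; simp
      · simp [ht]
    apply h
    refine ⟨fun v => f (Pi.single v 1) - u / r, ?_, ?_⟩
    · rw [Finset.sum_sub_distrib, Finset.sum_const, nsmul_eq_mul, Finset.card_univ]
      have h1 := hlin p
      simp only [p] at h1
      rw [← Finset.mul_sum] at h1
      rw [show f p = f (fun _ => (r : ℝ) / Fintype.card V) from _root_.rfl, h1] at hu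
      have h2 : u * (Fintype.card V / r) <
          (r : ℝ) / Fintype.card V * (∑ v, f (Pi.single v 1)) * (Fintype.card V / r) :=
        mul_lt_mul_of_pos_right hu (by positivity)
      have h3 : (r : ℝ) / Fintype.card V * (∑ v, f (Pi.single v 1)) * (Fintype.card V / r) =
          ∑ v, f (Pi.single v 1) := by
        field_simp
      rw [h3] at h2
      have h4 : u * (Fintype.card V / r) = (Fintype.card V : ℝ) * (u / r) := by
        field_simp
      linarith
    · intro e he
      have h1 := hf (ind e) (subset_convexHull ℝ _ (by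
        rw [Finset.coe_image]; exact ⟨e, he, _root_.rfl⟩))
      rw [hlin] at h1
      simp only [ind, ite_mul, one_mul, zero_mul, Finset.sum_ite_mem,
        Finset.univ_inter] at h1
      rw [Finset.sum_sub_distrib, Finset.sum_const, nsmul_eq_mul, hF e he]
      have h2 : (r : ℝ) * (u / r) = u := by field_simp
      linarith
  rw [Finset.mem_convexHull'] at hp
  obtain ⟨w, hw0, hw1, hw2⟩ := hp
  rw [Finset.sum_image (fun a _ b _ hab => hinj hab)] at hw2
  refine ⟨fun e => if e ∈ F then (Fintype.card V : ℝ) / r * w (ind e) else 0, ?_, ?_, ?_⟩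
  · intro e
    simp only
    split_ifs with he
    · exact mul_nonneg (by positivity) (hw0 _ (Finset.mem_image_of_mem ind he))
    · exact le_refl _
  · intro e he
    simp only
    rw [if_neg he]
  · intro v
    have h1 := congrFun hw2 v
    simp only [Finset.sum_apply, Pi.smul_apply, smul_eq_mul, ind, p, mul_ite, mul_one,
      mul_zero] at h1
    have h2 : ∑ e with v ∈ e, (if e ∈ F then (Fintype.card V : ℝ) / r * w (ind e) else 0) =
        (Fintype.card V : ℝ) / r * ∑ e ∈ F, (if v ∈ e then w (ind e) else 0) := by
      rw [Finset.sum_filter, Finset.mul_sum, ← Finset.sum_filter_add_sum_filter_not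
        (univ : Finset (Finset V)) (fun e => e ∈ F)]
      have h3 : ∑ e with e ∉ F, (if v ∈ e then
          (if e ∈ F then (Fintype.card V : ℝ) / r * w (ind e) else 0) else 0) = 0 := by
        apply Finset.sum_eq_zero
        intro e he
        rw [Finset.mem_filter] at he
        rw [if_neg he.2]
        simp
      rw [h3, add_zero]
      apply Finset.sum_congr
      · ext e; simp
      · intro e he
        rw [if_pos he]
        split_ifs <;> simp
    rw [h2]
    have h4 : ∑ e ∈ F, (if v ∈ e then w (ind e) else 0) = (r : ℝ) / Fintype.card V := h1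
    rw [h4]
    field_simp

end Weights


section Components

variable {V : Type*} [DecidableEq V]

/-- One step of a monochromatic tight walk between `r`-sets: the two sets share at least
`r - 1` vertices and have the same colour. -/
def Step (r : ℕ) (c : Finset V → Bool) (e f : Finset V) : Prop :=
  Near r e f ∧ c e = c f

/-- `f` can be reached from `e` by finitely many steps. -/
def Linked (r : ℕ) (c : Finset V → Bool) (e f : Finset V) : Prop :=
  Relation.ReflTransGen (Step r c) e f

variable {r : ℕ} {c : Finset V → Bool}

theorem Linked.symm {e f : Finset V} (h : Linked r c e f) : Linked r c f e :=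
  rtg_symm (fun _ _ h => ⟨h.1.symm, h.2.symm⟩) h

theorem Linked.colour {e f : Finset V} (h : Linked r c e f) : c e = c f := by
  induction h with
  | refl => rfl
  | tail _ h1 ih => exact ih.trans h1.2

theorem Linked.card {e f : Finset V} (h : Linked r c e f) (he : e.card = r) :
    f.card = r := by
  induction h with
  | refl => exact he
  | tail _ h1 _ => exact h1.1.2.1

theorem Linked.of_near {e f : Finset V} (h : Near r e f) (hc : c e = c f) : Linked r c e f :=
  Relation.ReflTransGen.single ⟨h, hc⟩

open Classical in
/-- Indicator of the pairs with one member in the component of `a` and the other one in the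
component of `b`. -/
noncomputable def edgeInd (r : ℕ) (c : Finset V → Bool) (a b e f : Finset V) : ZMod 2 :=
  if (Linked r c a e ∧ Linked r c b f) ∨ (Linked r c b e ∧ Linked r c a f) then 1 else 0

theorem edgeInd_zero_of_colour {a b e f : Finset V} (hab : c a ≠ c b) (hc : c e = c f) :
    edgeInd r c a b e f = 0 := by
  unfold edgeInd
  rw [if_neg]
  rintro (⟨h1, h2⟩ | ⟨h1, h2⟩)
  · exact hab (h1.colour.trans (hc.trans h2.colour.symm))
  · exact hab (h2.colour.trans (hc.symm.trans h1.colour.symm))

theorem edgeInd_symm (a b e f : Finset V) : edgeInd r c a b e f = edgeInd r c a b f e := by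
  unfold edgeInd
  congr 1
  apply propext
  constructor
  · rintro (⟨h1, h2⟩ | ⟨h1, h2⟩)
    · exact Or.inr ⟨h2, h1⟩
    · exact Or.inl ⟨h2, h1⟩
  · rintro (⟨h1, h2⟩ | ⟨h1, h2⟩)
    · exact Or.inr ⟨h2, h1⟩
    · exact Or.inl ⟨h2, h1⟩

theorem edgeInd_congr_left (a b : Finset V) {e e' : Finset V} (f : Finset V)
    (h : Linked r c e e') : edgeInd r c a b e f = edgeInd r c a b e' f := by
  unfold edgeInd
  congr 1
  apply propext
  have h1 : ∀ z, Linked r c z e ↔ Linked r c z e' := fun z =>
    ⟨fun hz => Relation.ReflTransGen.trans hz h,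
      fun hz => Relation.ReflTransGen.trans hz h.symm⟩
  rw [h1 a, h1 b]

theorem edgeInd_cocycle {a b : Finset V} (hab : c a ≠ c b) :
    Cocycle r (edgeInd r c a b) := by
  intro e f h hef hfh heh
  by_cases h1 : c e = c f
  · rw [edgeInd_zero_of_colour hab h1, zero_add]
    exact edgeInd_congr_left a b h (Linked.of_near hef h1)
  by_cases h2 : c f = c h
  · rw [edgeInd_zero_of_colour hab h2, add_zero, edgeInd_symm a b e h, edgeInd_symm a b e f]
    exact edgeInd_congr_left a b e (Linked.of_near hfh h2).symm
  have h3 : c e = c h := by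
    cases hce : c e <;> cases hcf : c f <;> cases hch : c h <;> simp_all
  rw [edgeInd_zero_of_colour hab h3, edgeInd_symm a b f h,
    edgeInd_congr_left a b f (Linked.of_near heh.symm h3.symm)]
  generalize edgeInd r c a b e f = t
  revert t
  decide

/-- `g` is a potential for the pair of components of `a` and `b`. -/
def IsPot (r : ℕ) (c : Finset V → Bool) (a b : Finset V) (g : Finset V → ZMod 2) : Prop :=
  ∀ e f, Near r e f → edgeInd r c a b e f = g e + g f

theorem IsPot.eq_of_zero {a b : Finset V} {g : Finset V → ZMod 2} (hg : IsPot r c a b g)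
    {e f : Finset V} (h : Near r e f)
    (h0 : ¬ ((Linked r c a e ∧ Linked r c b f) ∨ (Linked r c b e ∧ Linked r c a f))) :
    g e = g f := by
  have h1 := hg e f h
  unfold edgeInd at h1
  rw [if_neg h0] at h1
  generalize g e = u1 at h1 ⊢
  generalize g f = u2 at h1 ⊢
  clear * - h1
  revert u1 u2
  decide

theorem IsPot.ne_of_edge {a b : Finset V} {g : Finset V → ZMod 2} (hg : IsPot r c a b g)
    {e f : Finset V} (h : Near r e f)
    (h0 : (Linked r c a e ∧ Linked r c b f) ∨ (Linked r c b e ∧ Linked r c a f)) :
    g e ≠ g f := by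
  have h1 := hg e f h
  unfold edgeInd at h1
  rw [if_pos h0] at h1
  generalize g e = u1 at h1 ⊢
  generalize g f = u2 at h1 ⊢
  clear * - h1
  revert u1 u2
  decide

theorem IsPot.eq_of_linked {a b : Finset V} {g : Finset V → ZMod 2} (hg : IsPot r c a b g)
    (hab : c a ≠ c b) {e f : Finset V} (h : Linked r c e f) : g e = g f := by
  induction h with
  | refl => rfl
  | tail _ h1 ih =>
    rw [ih]
    apply hg.eq_of_zero h1.1
    rintro (⟨h2, h3⟩ | ⟨h2, h3⟩)
    · exact hab (h2.colour.trans (h1.2.trans h3.colour.symm))
    · exact hab (h3.colour.trans (h1.2.symm.trans h2.colour.symm))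

end Components

section Main

variable {V : Type*} [DecidableEq V] [Fintype V] {r : ℕ} {c : Finset V → Bool}

/-- The weight functions of positive total weight that are non-positive on the component
of `a`. -/
def K (r : ℕ) (c : Finset V → Bool) (a : Finset V) : Set (V → ℝ) :=
  {w | 0 < ∑ v, w v ∧ ∀ e, Linked r c a e → ∑ v ∈ e, w v ≤ 0}

theorem K_convex (a : Finset V) : Convex ℝ (K r c a) := by
  intro w hw w' hw' s t hs ht hst
  refine ⟨?_, ?_⟩
  · simp only [Pi.add_apply, Pi.smul_apply, smul_eq_mul, Finset.sum_add_distrib,
      ← Finset.mul_sum]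
    have h1 := hw.1
    have h2 := hw'.1
    rcases eq_or_lt_of_le hs with h | h
    · have : t = 1 := by linarith
      rw [← h, this]
      linarith
    · have h3 : 0 < s * ∑ v, w v := mul_pos h h1
      have h4 : 0 ≤ t * ∑ v, w' v := mul_nonneg ht h2.le
      linarith
  · intro e he
    simp only [Pi.add_apply, Pi.smul_apply, smul_eq_mul, Finset.sum_add_distrib,
      ← Finset.mul_sum]
    have h1 := mul_nonpos_of_nonneg_of_nonpos hs (hw.2 e he)
    have h2 := mul_nonpos_of_nonneg_of_nonpos ht (hw'.2 e he)
    linarith

/-- The potential is constant on the sets that are positive for one `w`. -/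
theorem pot_const_one (hr : 1 ≤ r) (hn : r ≤ Fintype.card V) {a b : Finset V}
    {g : Finset V → ZMod 2} (hg : IsPot r c a b g) {w : V → ℝ} (hw : w ∈ K r c a)
    {e f : Finset V} (he : e.card = r) (hf : f.card = r) (hpe : 0 < ∑ v ∈ e, w v)
    (hpf : 0 < ∑ v ∈ f, w v) : g e = g f := by
  obtain ⟨T, hT, hTp, hpath⟩ := exists_top r hr hn w hw.1
  have key : ∀ e, Relation.ReflTransGen (PosStep r w) e T → g e = g T := by
    intro e h
    induction h using Relation.ReflTransGen.head_induction_on with
    | refl => rfl
    | head h1 _ ih =>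
      rw [← ih]
      apply hg.eq_of_zero h1.1
      rintro (⟨h2, h3⟩ | ⟨h2, h3⟩)
      · exact absurd h1.2.1 (not_lt.mpr (hw.2 _ h2))
      · exact absurd h1.2.2 (not_lt.mpr (hw.2 _ h3))
  rw [key e (hpath e he hpe), key f (hpath f hf hpf)]

/-- The potential takes the same value on all sets that are positive for some `w ∈ K`. -/
theorem pot_const (hr : 1 ≤ r) (hn : r ≤ Fintype.card V) {a b : Finset V}
    {g : Finset V → ZMod 2} (hg : IsPot r c a b g) {w w' : V → ℝ} (hw : w ∈ K r c a)
    (hw' : w' ∈ K r c a)
    {e f : Finset V} (he : e.card = r) (hf : f.card = r) (hpe : 0 < ∑ v ∈ e, w v)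
    (hpf : 0 < ∑ v ∈ f, w' v) : g e = g f := by
  by_contra hcon
  have hpre : IsPreconnected (K r c a) := (K_convex a).isPreconnected
  let U : Set (V → ℝ) := {z | ∃ h : Finset V, h.card = r ∧ g h = g e ∧ 0 < ∑ v ∈ h, z v}
  let U' : Set (V → ℝ) := {z | ∃ h : Finset V, h.card = r ∧ g h ≠ g e ∧ 0 < ∑ v ∈ h, z v}
  have hopen : ∀ P : Finset V → Prop, IsOpen {z : V → ℝ | ∃ h : Finset V, h.card = r ∧ P h ∧
      0 < ∑ v ∈ h, z v} := by
    intro P
    have : {z : V → ℝ | ∃ h : Finset V, h.card = r ∧ P h ∧ 0 < ∑ v ∈ h, z v} =
        ⋃ h : Finset V, {z : V → ℝ | h.card = r ∧ P h ∧ 0 < ∑ v ∈ h, z v} := by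
      ext z
      simp
    rw [this]
    apply isOpen_iUnion
    intro h
    by_cases h1 : h.card = r ∧ P h
    · have : {z : V → ℝ | h.card = r ∧ P h ∧ 0 < ∑ v ∈ h, z v} =
          {z : V → ℝ | 0 < ∑ v ∈ h, z v} := by
        ext z
        simp [h1.1, h1.2]
      rw [this]
      exact isOpen_lt continuous_const (by fun_prop)
    · have : {z : V → ℝ | h.card = r ∧ P h ∧ 0 < ∑ v ∈ h, z v} = ∅ := by
        ext z
        simp only [Set.mem_ofPred_eq, Set.mem_empty_iff_false, iff_false]
        rintro ⟨h2, h3, -⟩
        exact h1 ⟨h2, h3⟩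
      rw [this]
      exact isOpen_empty
  have hU : IsOpen U := hopen (fun h => g h = g e)
  have hU' : IsOpen U' := hopen (fun h => g h ≠ g e)
  have hcov : K r c a ⊆ U ∪ U' := by
    intro z hz
    obtain ⟨T, hT, hTp, -⟩ := exists_top r hr hn z hz.1
    by_cases hgT : g T = g e
    · exact Or.inl ⟨T, hT, hgT, hTp⟩
    · exact Or.inr ⟨T, hT, hgT, hTp⟩
  have h1 : (K r c a ∩ U).Nonempty := ⟨w, hw, e, he, rfl, hpe⟩
  have h2 : (K r c a ∩ U').Nonempty := ⟨w', hw', f, hf, fun h => hcon h.symm, hpf⟩
  obtain ⟨z, hz, ⟨p, hp, hgp, hpp⟩, ⟨q, hq, hgq, hpq⟩⟩ := hpre U U' hU hU' hcov h1 h2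
  exact hgq ((pot_const_one hr hn hg hz hq hp hpq hpp).trans hgp)

/-- The neighbouring component chosen for `a`. -/
theorem exists_next (hr : 1 ≤ r) (hn : r ≤ Fintype.card V)
    {G : Finset V → Finset V → Finset V → ZMod 2}
    (hG : ∀ a b, c a ≠ c b → IsPot r c a b (G a b)) {a : Finset V} (ha : a.card = r)
    (hK : (K r c a).Nonempty) :
    ∃ b : Finset V, b.card = r ∧ c a ≠ c b ∧ G a b b ≠ G a b a ∧
      ∀ w ∈ K r c a, ∀ e : Finset V, e.card = r → 0 < ∑ v ∈ e, w v →
        G a b e ≠ G a b a := by
  obtain ⟨w, hw⟩ := hK
  obtain ⟨T, hT, hTp, -⟩ := exists_top r hr hn w hw.1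
  have hTa : ¬ Linked r c a T := fun h => absurd hTp (not_lt.mpr (hw.2 _ h))
  have key : ∀ e, Relation.ReflTransGen (Near r) e T →
      (∃ b : Finset V, b.card = r ∧ c a ≠ c b ∧ G a b b ≠ G a b a ∧ G a b T ≠ G a b a) ∨
      (¬ Linked r c a e ∧ ∀ b, c a ≠ c b → G a b e = G a b T) := by
    intro e h
    induction h using Relation.ReflTransGen.head_induction_on with
    | refl => exact Or.inr ⟨hTa, fun _ _ => rfl⟩
    | @head e f h1 _ ih =>
      rcases ih with ih | ⟨ih1, ih2⟩
      · exact Or.inl ih
      by_cases hae : Linked r c a e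
      · left
        have hcol : c a ≠ c f := by
          intro hc
          apply ih1
          exact Relation.ReflTransGen.trans hae
            (Linked.of_near h1 (hae.colour.symm.trans hc))
        have hpot := hG a f hcol
        have hne : G a f e ≠ G a f f :=
          hpot.ne_of_edge h1 (Or.inl ⟨hae, Relation.ReflTransGen.refl⟩)
        have heq : G a f a = G a f e := hpot.eq_of_linked hcol hae
        refine ⟨f, h1.2.1, hcol, ?_, ?_⟩
        · rw [heq]; exact hne.symm
        · rw [heq, ← ih2 f hcol]; exact hne.symm
      · right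
        refine ⟨hae, fun b hb => ?_⟩
        rw [← ih2 b hb]
        apply (hG a b hb).eq_of_zero h1
        rintro (⟨h2, h3⟩ | ⟨h2, h3⟩)
        · exact hae h2
        · exact ih1 h3
  rcases key a (near_connected r hr hn a T ha hT) with ⟨b, hb1, hb2, hb3, hb4⟩ | ⟨h1, -⟩
  · refine ⟨b, hb1, hb2, hb3, ?_⟩
    intro w' hw' e he hpe
    rw [pot_const hr hn (hG a b hb2) hw' hw he hT hpe hTp]
    exact hb4
  · exact absurd Relation.ReflTransGen.refl h1

/-- Either one component, or two components of different colours, meet every weight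
function of positive total weight in a set of positive weight. -/
theorem exists_pair (hr : 1 ≤ r) (hn : r ≤ Fintype.card V) (c : Finset V → Bool) :
    (∃ a : Finset V, a.card = r ∧ ¬ (K r c a).Nonempty) ∨
    (∃ a b : Finset V, a.card = r ∧ b.card = r ∧ c a ≠ c b ∧
      ¬ (K r c a ∩ K r c b).Nonempty) := by
  classical
  by_contra hcon
  rw [not_or] at hcon
  obtain ⟨hc1, hc2⟩ := hcon
  have hK : ∀ a : Finset V, a.card = r → (K r c a).Nonempty := by
    intro a ha
    by_contra h
    exact hc1 ⟨a, ha, h⟩
  have hG : ∀ a b : Finset V, ∃ g : Finset V → ZMod 2, c a ≠ c b → IsPot r c a b g := by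
    intro a b
    by_cases hab : c a ≠ c b
    · obtain ⟨g, hg⟩ := Cocycle.exists_potential r _ (edgeInd_cocycle (r := r) hab)
      exact ⟨g, fun _ => hg⟩
    · exact ⟨fun _ => 0, fun h => absurd h hab⟩
  choose G hG using hG
  have hnx : ∀ a : Finset V, ∃ b : Finset V, a.card = r → (b.card = r ∧ c a ≠ c b ∧
      G a b b ≠ G a b a ∧ ∀ w ∈ K r c a, ∀ e : Finset V, e.card = r → 0 < ∑ v ∈ e, w v →
        G a b e ≠ G a b a) := by
    intro a
    by_cases ha : a.card = r
    · obtain ⟨b, hb⟩ := exists_next hr hn hG ha (hK a ha)
      exact ⟨b, fun _ => hb⟩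
    · exact ⟨a, fun h => absurd h ha⟩
  choose nx hnx using hnx
  let S : Finset V → Finset (Finset V) := fun a =>
    univ.filter (fun e => e.card = r ∧ G a (nx a) e ≠ G a (nx a) a)
  have hne : ((univ : Finset V).powersetCard r).Nonempty :=
    Finset.powersetCard_nonempty.mpr (by rw [Finset.card_univ]; exact hn)
  obtain ⟨a, haP, hmin⟩ := Finset.exists_min_image ((univ : Finset V).powersetCard r)
    (fun a => (S a).card) hne
  have ha : a.card = r := (Finset.mem_powersetCard.mp haP).2
  obtain ⟨hb, hab, hGab, hposa⟩ := hnx a ha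
  set b := nx a with hbdef
  obtain ⟨hd, hbd, hGbd, hposb⟩ := hnx b hb
  set d := nx b with hddef
  have potab : IsPot r c a b (G a b) := hG a b hab
  have potbd : IsPot r c b d (G b d) := hG b d hbd
  have hlink : Linked r c a d := by
    by_contra hnl
    have key : ∀ e, Relation.ReflTransGen (Near r) e b → G b d e ≠ G b d b →
        G a b e = G a b b := by
      intro e h
      induction h using Relation.ReflTransGen.head_induction_on with
      | refl => exact fun h => absurd rfl h
      | @head e f h1 _ ih =>
        intro hne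
        have heb : ¬ Linked r c b e := fun h => hne (potbd.eq_of_linked hbd h).symm
        by_cases hfb : Linked r c b f
        · have hff : G b d b = G b d f := potbd.eq_of_linked hbd hfb
          have hde : Linked r c d e := by
            by_contra hde
            apply hne
            rw [hff]
            apply potbd.eq_of_zero h1
            rintro (⟨h2, h3⟩ | ⟨h2, h3⟩)
            · exact heb h2
            · exact hde h2
          have hae : ¬ Linked r c a e := fun h =>
            hnl (Relation.ReflTransGen.trans h hde.symm)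
          rw [potab.eq_of_linked hab hfb]
          apply potab.eq_of_zero h1
          rintro (⟨h2, h3⟩ | ⟨h2, h3⟩)
          · exact hae h2
          · exact heb h2
        · have h2 : G b d e = G b d f := by
            apply potbd.eq_of_zero h1
            rintro (⟨h2, h3⟩ | ⟨h2, h3⟩)
            · exact heb h2
            · exact hfb h3
          rw [← ih (by rw [← h2]; exact hne)]
          apply potab.eq_of_zero h1
          rintro (⟨h2, h3⟩ | ⟨h2, h3⟩)
          · exact hfb h3
          · exact heb h2
    have hsub : S b ⊆ S a := by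
      intro e he
      simp only [S, Finset.mem_filter, Finset.mem_univ, true_and] at he ⊢
      refine ⟨he.1, ?_⟩
      have := key e (near_connected r hr hn e b he.1 hb) he.2
      rw [← hbdef, this]
      exact hGab
    have hbin : b ∈ S a := by
      simp only [S, Finset.mem_filter, Finset.mem_univ, true_and]
      exact ⟨hb, hGab⟩
    have hbout : b ∉ S b := by
      simp only [S, Finset.mem_filter, Finset.mem_univ, true_and]
      rintro ⟨-, h⟩
      exact h rfl
    have hlt : (S b).card < (S a).card :=
      Finset.card_lt_card ⟨hsub, fun h => hbout (h hbin)⟩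
    have hle : (S a).card ≤ (S b).card := hmin b (by
      rw [Finset.mem_powersetCard]
      exact ⟨Finset.subset_univ _, hb⟩)
    omega
  apply hc2
  refine ⟨a, b, ha, hb, hab, ?_⟩
  rintro ⟨w, hwa, hwb⟩
  obtain ⟨T, hT, hTp, -⟩ := exists_top r hr hn w hwa.1
  have h1 := hposa w hwa T hT hTp
  have h2 := hposb w hwb T hT hTp
  have hedge : ∀ e f, edgeInd r c a b e f = edgeInd r c b d e f := by
    intro e f
    unfold edgeInd
    congr 1
    apply propext
    have h3 : ∀ z, Linked r c d z ↔ Linked r c a z := fun z =>
      ⟨fun hz => Relation.ReflTransGen.trans hlink hz,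
        fun hz => Relation.ReflTransGen.trans hlink.symm hz⟩
    rw [h3 e, h3 f]
    constructor
    · rintro (⟨p, q⟩ | ⟨p, q⟩)
      · exact Or.inr ⟨p, q⟩
      · exact Or.inl ⟨p, q⟩
    · rintro (⟨p, q⟩ | ⟨p, q⟩)
      · exact Or.inr ⟨p, q⟩
      · exact Or.inl ⟨p, q⟩
  have hconst : ∀ e, Relation.ReflTransGen (Near r) e b →
      G a b e + G b d e = G a b b + G b d b := by
    intro e h
    induction h using Relation.ReflTransGen.head_induction_on with
    | refl => rfl
    | @head e f h1 _ ih =>
      rw [← ih]
      have p1 := potab e f h1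
      have p2 := potbd e f h1
      rw [hedge, p2] at p1
      generalize G a b e = u1 at *
      generalize G a b f = u2 at *
      generalize G b d e = u3 at *
      generalize G b d f = u4 at *
      clear * - p1
      revert u1 u2 u3 u4
      decide
  have h3 := hconst T (near_connected r hr hn T b hT hb)
  generalize G a b T = u1 at *
  generalize G b d T = u2 at *
  generalize G a b b = u3 at *
  generalize G b d b = u4 at *
  generalize G a b a = u5 at *
  clear * - h1 h2 h3 hGab
  revert u1 u2 u3 u4 u5
  decide

end Main

/-- `R` is a tight component of colour `col`: it consists of all `r`-sets that can be reached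
from one `r`-set of colour `col` by steps between `r`-sets of the same colour that share at
least `r - 1` vertices. -/
def IsTightComponent {V : Type*} [DecidableEq V] (r : ℕ) (c : Finset V → Bool) (col : Bool)
    (R : Set (Finset V)) : Prop :=
  ∃ a : Finset V, a.card = r ∧ c a = col ∧ ∀ e, e ∈ R ↔ Linked r c a e

/-- For every `r ≥ 1`, every finite set `V` of at least `r` vertices and every colouring of
the `r`-subsets of `V` with two colours there are a red tight component `R` and a blue tight
component `B` (either may be empty) whose union has a perfect fractional matching. -/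
theorem result {V : Type*} [DecidableEq V] [Fintype V] (r : ℕ) (hr : 1 ≤ r)
    (hn : r ≤ Fintype.card V) (c : Finset V → Bool) :
    ∃ R B : Set (Finset V),
      (R = ∅ ∨ IsTightComponent r c true R) ∧
      (B = ∅ ∨ IsTightComponent r c false B) ∧
      ∃ x : Finset V → ℝ, (∀ e, 0 ≤ x e) ∧ (∀ e, x e ≠ 0 → e ∈ R ∨ e ∈ B) ∧
        ∀ v : V, ∑ e with v ∈ e, x e = 1 := by
  classical
  have main : ∀ F : Finset (Finset V), (∀ e ∈ F, e.card = r) →
      (¬ ∃ w : V → ℝ, 0 < ∑ v, w v ∧ ∀ e ∈ F, ∑ v ∈ e, w v ≤ 0) →
      ∀ R B : Set (Finset V), (∀ e ∈ F, e ∈ R ∨ e ∈ B) →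
      ∃ x : Finset V → ℝ, (∀ e, 0 ≤ x e) ∧ (∀ e, x e ≠ 0 → e ∈ R ∨ e ∈ B) ∧
        ∀ v : V, ∑ e with v ∈ e, x e = 1 := by
    intro F hF hK R B hRB
    obtain ⟨x, hx0, hx1, hx2⟩ := farkas r hr hn F hF hK
    refine ⟨x, hx0, fun e he => ?_, hx2⟩
    by_contra hcon
    exact he (hx1 e (fun h => hcon (hRB e h)))
  rcases exists_pair hr hn c with ⟨a, ha, hK⟩ | ⟨a, b, ha, hb, hab, hK⟩
  · have hno : ¬ ∃ w : V → ℝ, 0 < ∑ v, w v ∧
        ∀ e ∈ (univ : Finset (Finset V)).filter (fun e => Linked r c a e),
          ∑ v ∈ e, w v ≤ 0 := by
      rintro ⟨w, hw1, hw2⟩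
      apply hK
      exact ⟨w, hw1, fun e he => hw2 e (by simp [he])⟩
    cases hca : c a with
    | true =>
      refine ⟨{e | Linked r c a e}, ∅, Or.inr ⟨a, ha, hca, fun e => Iff.rfl⟩, Or.inl rfl, ?_⟩
      refine main _ ?_ hno _ _ ?_
      · intro e he
        exact (Finset.mem_filter.mp he).2.card ha
      · intro e he
        exact Or.inl (Finset.mem_filter.mp he).2
    | false =>
      refine ⟨∅, {e | Linked r c a e}, Or.inl rfl, Or.inr ⟨a, ha, hca, fun e => Iff.rfl⟩, ?_⟩
      refine main _ ?_ hno _ _ ?_
      · intro e he
        exact (Finset.mem_filter.mp he).2.card ha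
      · intro e he
        exact Or.inr (Finset.mem_filter.mp he).2
  · have hno : ¬ ∃ w : V → ℝ, 0 < ∑ v, w v ∧
        ∀ e ∈ (univ : Finset (Finset V)).filter (fun e => Linked r c a e ∨ Linked r c b e),
          ∑ v ∈ e, w v ≤ 0 := by
      rintro ⟨w, hw1, hw2⟩
      apply hK
      exact ⟨w, ⟨hw1, fun e he => hw2 e (by simp [he])⟩,
        ⟨hw1, fun e he => hw2 e (by simp [he])⟩⟩
    have hcard : ∀ e ∈ (univ : Finset (Finset V)).filter
        (fun e => Linked r c a e ∨ Linked r c b e), e.card = r := by
      intro e he
      rcases (Finset.mem_filter.mp he).2 with h | h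
      · exact h.card ha
      · exact h.card hb
    cases hca : c a with
    | true =>
      have hcb : c b = false := by
        cases h : c b
        · rfl
        · exact absurd (hca.trans h.symm) hab
      refine ⟨{e | Linked r c a e}, {e | Linked r c b e}, Or.inr ⟨a, ha, hca, fun e => Iff.rfl⟩,
        Or.inr ⟨b, hb, hcb, fun e => Iff.rfl⟩, ?_⟩
      refine main _ hcard hno _ _ ?_
      intro e he
      exact (Finset.mem_filter.mp he).2
    | false =>
      have hcb : c b = true := by
        cases h : c b
        · exact absurd (hca.trans h.symm) hab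
        · rfl
      refine ⟨{e | Linked r c b e}, {e | Linked r c a e}, Or.inr ⟨b, hb, hcb, fun e => Iff.rfl⟩,
        Or.inr ⟨a, ha, hca, fun e => Iff.rfl⟩, ?_⟩
      refine main _ hcard hno _ _ ?_
      intro e he
      exact (Finset.mem_filter.mp he).2.symm

end Pool.Agent.Results.MP_952639_co.FractionalTwoComponents
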